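import Pool.Agent.H55.OC.SprbS
import Pool.Agent.H55.OC.SprbE2
import Pool.Agent.H29.OC.SprbT

/-!
# OC, row SPRB: the tangential velocity is active in the cells of stage B
-/

set_option autoImplicit false

namespace Pool.OC

open Finset Real
open Pool.Agent.H49.Ent Pool.Agent.H32.Dense Pool.STK Pool.KAF Pool.OCT

/-- The first digits of the normal velocity. -/
theorem sprb_M {d : Dat} {A : ℕ} (hOK : d.OK A) {m : d.Lam → ℤ} {n s : ℕ}
    (hm2 : ∀ l, m l ≤ 2 * n) (hs : s ≤ 9 * n) {T : Type} (G : d.Om × d.Om → T) :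
    CH (d.Qp 0) (fl (2 ^ s) (d.beT m)) G ≤ (11 * n + A + 5) * Real.log 2 := by
  have hlaw := Dat.qp_law hOK 0
  have hb : ∀ w, 0 < d.Qp 0 w → |d.beT m w| ≤ 2 ^ (2 * n + A + 1) := by
    intro w hw
    obtain ⟨h1, -, -, -⟩ := Dat.qp_pos hOK hw
    have a1 := hOK.hbe w.1 h1
    have a2 := hOK.hom w.1 h1
    have a3 := hOK.hS (d.T w.1)
    unfold Dat.beT
    rw [abs_mul, abs_of_pos (by positivity : (0 : ℝ) < 2 ^ m (d.L w.1))]
    have h2 : (2 : ℝ) ^ m (d.L w.1) ≤ 2 ^ (2 * n) := by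
      rw [← zpow_natCast (2 : ℝ) (2 * n)]
      refine zpow_le_zpow_right₀ (by norm_num) ?_
      push_cast
      exact hm2 _
    have h3 : |d.beR (d.L w.1) - d.S (d.T w.1) * d.omR (d.L w.1)| ≤ 2 ^ (A + 1) := by
      refine (abs_sub _ _).trans ?_
      rw [abs_mul, pow_succ]
      have h4 : |d.S (d.T w.1)| * |d.omR (d.L w.1)| ≤ 1 * 2 ^ A :=
        mul_le_mul a3 a2 (abs_nonneg _) zero_le_one
      linarith only [a1, h4]
    calc (2 : ℝ) ^ m (d.L w.1) * |d.beR (d.L w.1) - d.S (d.T w.1) * d.omR (d.L w.1)|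
        ≤ 2 ^ (2 * n) * 2 ^ (A + 1) := mul_le_mul h2 h3 (abs_nonneg _) (by positivity)
      _ = 2 ^ (2 * n + A + 1) := by rw [← pow_add]; rfl
  have g2 := CH_le_int hlaw.nonneg hlaw.sum_one (fl (2 ^ s) (d.beT m)) G
    (fun _ => 2 ^ (s + 2 * n + A + 2) + 1) (fun w w' hw hw' _ => by
      refine fl_diff (by positivity) (d.beT m) ?_
      have h4 := hb w hw
      have h5 := hb w' hw'
      refine (abs_sub _ _).trans ?_
      have e1 : (2 : ℝ) ^ (s + 2 * n + A + 2) / 2 ^ s =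
          2 ^ (2 * n + A + 1) + 2 ^ (2 * n + A + 1) := by
        rw [show s + 2 * n + A + 2 = s + (2 * n + A + 1) + 1 by ring, pow_succ, pow_add]
        field_simp
        ring
      rw [e1]
      linarith only [h4, h5])
  rw [Ex_const hlaw.sum_one] at g2
  refine g2.trans ?_
  have e1 : (2 : ℝ) * (2 ^ (s + 2 * n + A + 2) + 1) + 1 ≤ 2 ^ (11 * n + A + 5) := by
    have e2 : (2 : ℝ) ^ (s + 2 * n + A + 2) ≤ 2 ^ (11 * n + A + 2) :=
      pow_le_pow_right₀ (by norm_num) (by omega)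
    have e3 : (1 : ℝ) ≤ 2 ^ (11 * n + A + 2) := one_le_pow₀ (by norm_num)
    have e4 : (2 : ℝ) ^ (11 * n + A + 5) = 8 * 2 ^ (11 * n + A + 2) := by
      rw [show 11 * n + A + 5 = (11 * n + A + 2) + 3 by ring, pow_add]
      norm_num
      ring
    rw [e4]
    linarith only [e2, e3]
  have e5 := Real.log_le_log (by positivity) e1
  rw [Real.log_pow] at e5
  push_cast at e5
  exact e5

/-- The two forms of the active event. -/
theorem act_le {d : Dat} {A : ℕ} (hOK : d.OK A) (m : d.Lam → ℤ) (s K : ℕ) :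
    Pr (dbl (d.Qp 0) (cB (d.x0 m) d.y1 d.omT (d.beT m) s))
        {w | 1 / 2 ^ (s + K) ≤ |d.omT w.1 - d.omT w.2|} ≤
      Pr (dbl (d.Qp 0) (d.LB m s)) {w | (2 : ℝ) ^ (-((s : ℤ) - sc (d.ta w.1) + K)) ≤
        |d.omR (d.L w.1.1) - d.omR (d.L w.2.1)|} := by
  have hlaw := Dat.qp_law hOK 0
  have h1 : dbl (d.Qp 0) (d.LB m s) = dbl (d.Qp 0) (cB (d.x0 m) d.y1 d.omT (d.beT m) s) :=
    dbl_iff fun v w => cB_iff s v w
  rw [h1]
  refine Pr_mono (fun w => dbl_nonneg hlaw.nonneg w) ?_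
  intro w hw hww
  have hww' : 1 / 2 ^ (s + K) ≤ |d.omT w.1 - d.omT w.2| := hww
  obtain ⟨g1, g2, -⟩ := cell_B (dbl_eq hlaw.nonneg hw)
  have hta : d.ta w.2 = d.ta w.1 := by
    unfold Dat.ta
    rw [g1, g2]
  have e1 : d.omT w.1 - d.omT w.2 = (2 : ℝ) ^ (-sc (d.ta w.1)) *
      (d.omR (d.L w.1.1) - d.omR (d.L w.2.1)) := by
    unfold Dat.omT
    rw [hta]
    ring
  rw [e1, abs_mul, abs_of_pos (by positivity : (0 : ℝ) < 2 ^ (-sc (d.ta w.1)))] at hww'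
  show (2 : ℝ) ^ (-((s : ℤ) - sc (d.ta w.1) + K)) ≤ |d.omR (d.L w.1.1) - d.omR (d.L w.2.1)|
  have e2 : (2 : ℝ) ^ (-((s : ℤ) - sc (d.ta w.1) + K)) =
      (2 : ℝ) ^ (sc (d.ta w.1)) * (1 / 2 ^ (s + K)) := by
    rw [one_div, ← zpow_natCast (2 : ℝ) (s + K), ← zpow_neg, ← zpow_add₀ (by norm_num)]
    congr 1
    push_cast
    ring
  rw [e2]
  have e3 := mul_le_mul_of_nonneg_left hww'
    (by positivity : (0 : ℝ) ≤ (2 : ℝ) ^ (sc (d.ta w.1)))
  rw [← mul_assoc, ← zpow_add₀ (by norm_num), add_neg_cancel, zpow_zero, one_mul] at e3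
  exact e3

/-- **Row SPRB.** -/
theorem sprb_thm : SPRBStmt := by
  intro u ca hu hu1 hca
  set γ : ℝ := min ca 1 with hγ
  have hγ0 : 0 < γ := lt_min hca one_pos
  have hγ1 : γ ≤ 1 := min_le_right _ _
  have hγc : γ ≤ ca := min_le_left _ _
  refine ⟨γ * u / 1000, γ / 2000, by positivity, by positivity, ?_⟩
  intro A a k'
  obtain ⟨K, hK⟩ := exists_nat_ge (16 * (a + 10) / γ)
  obtain ⟨n₁, hn₁⟩ := exists_nat_ge ((6 * A + 31) / γ)
  refine ⟨K, k' + K + 2, max (max k' (4 * (a + K + 6) + 4)) n₁, γ / 16 * u * γ / 128,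
    by positivity, ?_⟩
  intro d J m n h k k₁ e hOK hS hn hnκ hk hk₁ he hR hJ hN hTA hTB hH1 hH3 hH4
  have hl2 : 0 < Real.log 2 := Real.log_pos (by norm_num)
  have hl2' : (2 : ℝ) / 3 ≤ Real.log 2 := by
    have := Real.log_two_gt_d9
    linarith only [hl2, this]
  have hKpos : (0 : ℝ) < K := by
    refine lt_of_lt_of_le (by positivity) hK
  have hK1 : 1 ≤ K := by exact_mod_cast hKpos
  have hn1 : k' ≤ n := le_trans (le_trans (le_max_left _ _) (le_max_left _ _)) hn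
  have hn2 : 4 * (a + K + 6) + 4 ≤ n := le_trans (le_trans (le_max_right _ _) (le_max_left _ _)) hn
  have hn3 : n₁ ≤ n := le_trans (le_max_right _ _) hn
  have hnX := hS.nX
  set ε₈ : ℝ := γ * u / 1000 with hε₈
  have hε₈0 : 0 ≤ ε₈ := by positivity
  obtain ⟨chi, c, b, hchi, hb, hb0, hbs⟩ := sel_B (K := K) (k' := k') (a := a) (u := u)
    (ε := γ / 16) hOK hS hu (by positivity) hk (by omega) (by omega) hn1 hR
  have hGd := GdB_meas (k' := k') (a := a) hOK hu hε₈0 hS hJ hN hTA hTB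
  set N : ℕ := (d.X - 16 * n) / K with hNdef
  have hNK : N * K ≤ d.X - 16 * n := Nat.div_mul_le_self _ _
  have hNK' : d.X - 16 * n < N * K + K := Nat.lt_div_mul_add (by omega)
  set L : ℝ := (1 + ca) * d.X * Real.log 2 -
    (43 * n + 4 * (ε₈ * d.X) + (2 * A + 14) + ε₈ * (A + 3)) with hL
  set M : ℝ := (11 * n + A + 5) * Real.log 2 with hM
  have hT := sprb_t (d.Om × d.Om) (d.Tau × d.Tau × ℤ) (d.Qp 0) (d.x0 m) d.y1 d.omT (d.beT m) K N
    (8 * n) chi c b (1 / 2 ^ (K + 1)) (2 ^ (a + 4)) L M (Dat.qp_law hOK 0) hK1 (by positivity)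
    (by positivity) hchi (fun s h1 h2 => hb s h1 (by omega)) (fun ρ hρ =>
      sprb_e2 A d m n (8 * n + ρ) (8 * n + ρ + N * K) ε₈ ca hOK hS.m1 hS.m2 (by omega) (by omega)
        (by omega) (by omega) hnX hε₈0 hTA hH1 hH3 hH4)
    (fun ρ hρ => sprb_M hOK hS.m2 (by omega) _)
  -- the sum on the right
  have hR1 : ∑ t ∈ range (N * K), Pr (dbl (d.Qp 0)
      (cB (d.x0 m) d.y1 d.omT (d.beT m) (8 * n + t)))
        {w | 1 / 2 ^ (8 * n + t + K) ≤ |d.omT w.1 - d.omT w.2|} ≤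
      ∑ s ∈ Finset.Ico (8 * n) (d.X - 8 * n), Pr (dbl (d.Qp 0) (d.LB m s))
    {w | (2 : ℝ) ^ (-((s : ℤ) - sc (d.ta w.1) + K)) ≤
      |d.omR (d.L w.1.1) - d.omR (d.L w.2.1)|} := by
    rw [Finset.sum_Ico_eq_sum_range]
    refine le_trans (Finset.sum_le_sum fun t _ => act_le hOK m (8 * n + t) K) ?_
    refine Finset.sum_le_sum_of_subset_of_nonneg ?_ fun t _ _ =>
      Pr_nonneg (fun w => dbl_nonneg (Dat.qp_law hOK 0).nonneg w) _
    intro t ht
    rw [Finset.mem_range] at ht ⊢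
    omega
  have hR2 : ∑ t ∈ range (N * K), b (8 * n + t) ≤
      ∑ s ∈ Finset.Ico (8 * n) (d.X - 8 * n), b s := by
    rw [Finset.sum_Ico_eq_sum_range]
    refine Finset.sum_le_sum_of_subset_of_nonneg ?_ fun t _ _ => hb0 _
    intro t ht
    rw [Finset.mem_range] at ht ⊢
    omega
  unfold ACTB
  refine le_trans ?_ (hT.trans hR1)
  -- numbers
  have hX0 : (0 : ℝ) < d.X := by
    have : 0 < d.X := by omega
    exact_mod_cast this
  have hlogκ : Real.log (2 ^ (K + 1) * (1 / 2 ^ (K + 1) + 2 ^ (a + 4) / 2 ^ K) + 2) /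
      Real.log 2 ≤ a + 6 := by
    rw [div_le_iff₀ hl2]
    have e1 : (2 : ℝ) ^ (K + 1) * (1 / 2 ^ (K + 1) + 2 ^ (a + 4) / 2 ^ K) + 2 ≤ 2 ^ (a + 6) := by
      have e2 : (2 : ℝ) ^ (K + 1) * (1 / 2 ^ (K + 1) + 2 ^ (a + 4) / 2 ^ K) =
          1 + 2 ^ (a + 5) := by
        rw [pow_succ 2 K, pow_succ 2 (a + 4)]
        field_simp
      rw [e2, pow_succ 2 (a + 5)]
      have e3 : (16 : ℝ) ≤ 2 ^ (a + 4) := by
        calc (16 : ℝ) = 2 ^ 4 := by norm_num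
          _ ≤ 2 ^ (a + 4) := pow_le_pow_right₀ (by norm_num) (by omega)
      have e4 : (2 : ℝ) ^ (a + 5) = 2 * 2 ^ (a + 4) := by rw [pow_succ 2 (a + 4)]; ring
      linarith only [e3, e4]
    have e5 := Real.log_le_log (by positivity) e1
    rw [Real.log_pow] at e5
    push_cast at e5
    exact e5
  have hNr : (N : ℝ) * K ≤ d.X := by
    have : N * K ≤ d.X := by omega
    exact_mod_cast this
  have hN0 : (0 : ℝ) ≤ N := Nat.cast_nonneg _
  have e1 : (N : ℝ) * (K + 4 + Real.log (2 ^ (K + 1) * (1 / 2 ^ (K + 1) + 2 ^ (a + 4) / 2 ^ K) + 2) /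
      Real.log 2) ≤ d.X + γ / 16 * d.X := by
    have h1 : (N : ℝ) * (K + 4 + Real.log (2 ^ (K + 1) * (1 / 2 ^ (K + 1) +
        2 ^ (a + 4) / 2 ^ K) + 2) / Real.log 2) ≤ N * (K + 4 + (a + 6)) :=
      mul_le_mul_of_nonneg_left (by linarith only [hlogκ]) hN0
    have h2 : (N : ℝ) * (a + 10) ≤ γ / 16 * d.X := by
      have h3 : 16 * ((a : ℝ) + 10) ≤ K * γ := by
        rwa [div_le_iff₀ hγ0] at hK
      have h4 : (N : ℝ) * (16 * (a + 10)) ≤ N * (K * γ) := mul_le_mul_of_nonneg_left h3 hN0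
      have h5 : (N : ℝ) * K * γ ≤ d.X * γ := mul_le_mul_of_nonneg_right hNr hγ0.le
      linarith only [h4, h5]
    linarith only [hNr, h1, h2]
  have e2 : 8 * (e * d.X) / (γ / 16 * u) ≤ γ / 16 * d.X := by
    rw [div_le_iff₀ (by positivity)]
    have h1 : e * d.X ≤ (γ / 16 * u * γ / 128) * d.X := mul_le_mul_of_nonneg_right he hX0.le
    linarith only [h1]
  have e3 : d.X * (Pr (d.Qp 0) (GdB d J m n h k' a u)ᶜ + γ / 16) ≤
      d.X * (18 * γ / 1000 + γ / 16) := by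
    refine mul_le_mul_of_nonneg_left ?_ hX0.le
    have h1 : 16 * ε₈ / u = 16 * γ / 1000 := by
      rw [hε₈]
      field_simp
    have h2 : ε₈ ≤ γ / 1000 := by
      rw [hε₈]
      have : γ * u ≤ γ * 1 := mul_le_mul_of_nonneg_left hu1 hγ0.le
      linarith only [this]
    rw [h1] at hGd
    linarith only [hGd, h2]
  have hε₈1 : ε₈ ≤ γ / 1000 := by
    rw [hε₈]
    have : γ * u ≤ γ * 1 := mul_le_mul_of_nonneg_left hu1 hγ0.le
    linarith only [this]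
  have e4 : (6 * (A : ℝ) + 31) ≤ γ / 64 * d.X := by
    have h1 : (6 * (A : ℝ) + 31) ≤ n₁ * γ := by
      rwa [div_le_iff₀ hγ0] at hn₁
    have h2 : (64 : ℝ) * n₁ ≤ d.X := by
      have : 64 * n₁ ≤ d.X := by omega
      exact_mod_cast this
    have h3 := mul_le_mul_of_nonneg_right h2 hγ0.le
    linarith only [h1, h3]
  have e5 : (L - M) / Real.log 2 ≥ (1 + ca) * d.X - (3 / 2 * (43 * n + 4 * (ε₈ * d.X) +
      (2 * A + 14) + ε₈ * (A + 3)) + (11 * n + A + 5)) := by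
    rw [ge_iff_le, le_div_iff₀ hl2, hL, hM]
    have h1 : 0 ≤ 43 * (n : ℝ) + 4 * (ε₈ * d.X) + (2 * A + 14) + ε₈ * (A + 3) := by positivity
    have h2 := mul_le_mul_of_nonneg_left hl2' h1
    have h3 : ((1 + ca) * d.X - (3 / 2 * (43 * n + 4 * (ε₈ * d.X) + (2 * A + 14) +
        ε₈ * (A + 3)) + (11 * n + A + 5))) * Real.log 2 = (1 + ca) * d.X * Real.log 2 -
        3 / 2 * ((43 * n + 4 * (ε₈ * d.X) + (2 * A + 14) + ε₈ * (A + 3)) * Real.log 2) -
        (11 * n + A + 5) * Real.log 2 := by ring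
    rw [h3]
    linarith only [h2]
  have hA0 : (0 : ℝ) ≤ A := Nat.cast_nonneg _
  have e6 : ε₈ * ((A : ℝ) + 3) ≤ A + 3 := by
    have : ε₈ ≤ 1 := by linarith only [hγ1, hε₈1]
    nlinarith only [hγ1, hε₈1]
  have e7 : ε₈ * d.X ≤ γ / 1000 * d.X := mul_le_mul_of_nonneg_right hε₈1 hX0.le
  have e8 : γ * d.X ≤ ca * d.X := mul_le_mul_of_nonneg_right hγc hX0.le
  have hγX : 0 < γ * d.X := by positivity
  generalize (L - M) / Real.log 2 = Z at e5 ⊢
  generalize Real.log (2 ^ (K + 1) * (1 / 2 ^ (K + 1) + 2 ^ (a + 4) / 2 ^ K) + 2) /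
      Real.log 2 = Y at e1 ⊢
  generalize ∑ t ∈ range (N * K), b (8 * n + t) = B1 at hR2 ⊢
  generalize ∑ s ∈ Finset.Ico (8 * n) (d.X - 8 * n), b s = B2 at hR2 hbs
  generalize 8 * (e * d.X) / (γ / 16 * u) = B3 at e2 hbs
  generalize d.X * (Pr (d.Qp 0) (GdB d J m n h k' a u)ᶜ + γ / 16) = B4 at e3 hbs
  clear hGd hb hb0 hT hR1 hR hJ hN hTA hTB hH1 hH3 hH4 hchi
  have f1 : B1 ≤ d.X * (18 * γ / 1000 + γ / 16) + γ / 16 * d.X := by linarith only [hR2, e2, e3, hbs]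
  have f2 : (43 * (n : ℝ) + 4 * (ε₈ * d.X) + (2 * A + 14) + ε₈ * (A + 3)) ≤
      43 * (γ / 2000 * d.X) + 4 * (γ / 1000 * d.X) + (2 * A + 14) + (A + 3) := by linarith only [hnκ, e6, e7]
  have f3 : (11 * (n : ℝ) + A + 5) ≤ 11 * (γ / 2000 * d.X) + A + 5 := by linarith only [hnκ]
  have f4 : Z ≥ (1 + ca) * d.X - (3 / 2 * (43 * (γ / 2000 * d.X) + 4 * (γ / 1000 * d.X) +
      (2 * A + 14) + (A + 3)) + (11 * (γ / 2000 * d.X) + A + 5)) := by linarith only [hnκ, e6, e7, e5]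
  have f5 : (1 + ca) * (d.X : ℝ) = d.X + ca * d.X := by ring
  rw [f5] at f4
  have f6 : (d.X : ℝ) * (18 * γ / 1000 + γ / 16) = (18 / 1000 + 1 / 16) * (γ * d.X) := by ring
  rw [f6] at f1
  linarith only [hnκ, e4, e6, e7, e8, e5, e1, hR2, e2, e3, hbs]

end Pool.OC
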