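import Pool.Agent.H55.OC.KerDefs
import Pool.Agent.H29.OC.Nmx

/-!
# OC, stage B: kernels of the partners, density of the heavy rows, sizes in the cells
-/

set_option autoImplicit false

namespace Pool.OC

open Finset Real
open Pool.Agent.H49.Ent Pool.Agent.H32.Dense Pool.STK Pool.KAF Pool.OCT

/-! ### kernels -/

namespace Dat

variable (d : Dat)

/-- The conditional law of the partner at the scale `i`. -/
noncomputable def kap (i : ℕ) (ω v : d.Om) : ℝ :=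
  cond d.P (fun ω => (d.L ω, d.Ti i ω)) (d.L ω, d.Ti i ω) v

theorem qp_eq (i : ℕ) (ω v : d.Om) : d.Qp i (ω, v) = d.P ω * d.kap i ω v :=
  dbl_mul d.P (fun ω => (d.L ω, d.Ti i ω)) ω v

variable {d}

theorem qp_law {A : ℕ} (h : d.OK A) (i : ℕ) : IsLaw (d.Qp i) :=
  ⟨fun w => dbl_nonneg h.law.nonneg w, Pool.KAL.FRM.dbl_sum h.law _⟩

theorem qp_fst {A : ℕ} (h : d.OK A) (i : ℕ) : Marg (d.Qp i) d.P (fun w => w.1) :=
  dbl_fst h.law.nonneg

theorem qp_snd {A : ℕ} (h : d.OK A) (i : ℕ) : Marg (d.Qp i) d.P (fun w => w.2) :=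
  dbl_snd h.law.nonneg

theorem qp_pos {A : ℕ} (h : d.OK A) {i : ℕ} {w : d.Om × d.Om} (hw : 0 < d.Qp i w) :
    0 < d.P w.1 ∧ 0 < d.P w.2 ∧ d.L w.1 = d.L w.2 ∧ d.Ti i w.1 = d.Ti i w.2 := by
  have hw' : 0 < glue d.P d.P (fun ω => (d.L ω, d.Ti i ω)) (fun ω => (d.L ω, d.Ti i ω)) w := hw
  obtain ⟨h1, h2, h3⟩ := (glue_pos_iff h.law.nonneg h.law.nonneg w).1 hw'
  exact ⟨h1, h2, (Prod.ext_iff.1 h3).1, (Prod.ext_iff.1 h3).2⟩

theorem kap_nonneg {A : ℕ} (h : d.OK A) (i : ℕ) (ω v : d.Om) : 0 ≤ d.kap i ω v :=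
  cond_nonneg h.law.nonneg _ _ v

theorem kap_sum {A : ℕ} (h : d.OK A) (i : ℕ) {ω : d.Om} (hω : 0 < d.P ω) :
    ∑ v, d.kap i ω v = 1 :=
  sum_cond d.P _ (law_pos h.law.nonneg (fun ω => (d.L ω, d.Ti i ω)) hω).ne'

theorem kap_pos {A : ℕ} (h : d.OK A) {i : ℕ} {ω v : d.Om} (hv : 0 < d.kap i ω v) :
    0 < d.P v ∧ d.L v = d.L ω ∧ d.Ti i v = d.Ti i ω := by
  obtain ⟨h1, h2⟩ := (cond_pos_iff h.law.nonneg _ _ v).1 hv
  exact ⟨h1, (Prod.ext_iff.1 h2).1, (Prod.ext_iff.1 h2).2⟩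

theorem glue_kap {W : Type} [Fintype W] {q : W → ℝ} {pr : W → d.Om}
    (hM : Marg q d.P pr) (i : ℕ) (w : W) (v : d.Om) :
    glue q d.P (fun w => (d.L (pr w), d.Ti i (pr w))) (fun ω => (d.L ω, d.Ti i ω)) (w, v) =
      q w * d.kap i (pr w) v := by
  classical
  unfold glue kap Pool.Agent.H49.Ent.cond
  have h1 := hM.law (fun ω => (d.L ω, d.Ti i ω)) (d.L (pr w), d.Ti i (pr w))
  simp only
  rw [h1]
  by_cases h2 : (d.L (pr w), d.Ti i (pr w)) = (d.L v, d.Ti i v)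
  · rw [if_pos h2, if_pos h2.symm]
    ring
  · rw [if_neg h2, if_neg (Ne.symm h2), mul_zero]

theorem q3_eq {A : ℕ} (h : d.OK A) (i : ℕ) (w : d.Om × d.Om) (v : d.Om) :
    d.Q3 i (w, v) = d.Qp 0 w * d.kap i w.1 v :=
  glue_kap (qp_fst h 0) i w v

theorem q3'_eq {A : ℕ} (h : d.OK A) (i : ℕ) (w : d.Om × d.Om) (v : d.Om) :
    d.Q3' i (w, v) = d.Qp 0 w * d.kap i w.2 v :=
  glue_kap (qp_snd h 0) i w v

/-- Means over triples. -/
theorem ex_q3 {A : ℕ} (h : d.OK A) (i : ℕ) (f : (d.Om × d.Om) × d.Om → ℝ) :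
    Ex (d.Q3 i) f = ∑ w, d.Qp 0 w * ∑ v, d.kap i w.1 v * f (w, v) := by
  unfold Ex
  rw [Fintype.sum_prod_type]
  refine Finset.sum_congr rfl fun w _ => ?_
  rw [Finset.mul_sum]
  refine Finset.sum_congr rfl fun v _ => ?_
  rw [q3_eq h, mul_assoc]

theorem ex_q3' {A : ℕ} (h : d.OK A) (i : ℕ) (f : (d.Om × d.Om) × d.Om → ℝ) :
    Ex (d.Q3' i) f = ∑ w, d.Qp 0 w * ∑ v, d.kap i w.2 v * f (w, v) := by
  unfold Ex
  rw [Fintype.sum_prod_type]
  refine Finset.sum_congr rfl fun w _ => ?_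
  rw [Finset.mul_sum]
  refine Finset.sum_congr rfl fun v _ => ?_
  rw [q3'_eq h, mul_assoc]

/-- Probabilities over pairs. -/
theorem pr_qp (i : ℕ) (E : Set (d.Om × d.Om)) [DecidablePred (· ∈ E)] :
    Pr (d.Qp i) E = ∑ ω, d.P ω * ∑ v, d.kap i ω v * (if (ω, v) ∈ E then 1 else 0) := by
  classical
  rw [Pool.KAF.Pr_eq, Fintype.sum_prod_type]
  refine Finset.sum_congr rfl fun ω _ => ?_
  rw [Finset.mul_sum]
  refine Finset.sum_congr rfl fun v _ => ?_
  by_cases h : (ω, v) ∈ E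
  · rw [if_pos h, if_pos h, mul_one, d.qp_eq]
  · rw [if_neg h, if_neg h, mul_zero, mul_zero]

/-- The time of the partner is near. -/
theorem ti_near {i : ℕ} {ω v : d.Om} (h : d.Ti i v = d.Ti i ω) :
    |d.th (d.T v) - d.th (d.T ω)| ≤ (2 : ℝ) ^ (-(i : ℤ)) := by
  have h1 := Int.abs_sub_lt_one_of_floor_eq_floor h
  rw [← mul_sub, abs_mul, abs_of_pos (by positivity : (0 : ℝ) < 2 ^ i)] at h1
  rw [zpow_neg, zpow_natCast, ← one_div, le_div_iff₀ (by positivity), mul_comm]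
  exact h1.le

end Dat

/-! ### density -/

/-- Number of the heavy rows in an interval. -/
theorem count_int (J₀ : Set ℕ) {X h x y : ℕ} (hh : 1 ≤ h) (hy : y + h ≤ X) {u : ℝ} (hu : 0 ≤ u)
    (hJ : ∀ j : ℕ, (j + 2) * h ≤ X →
      u * h ≤ (Set.ncard {r | r ∈ J₀ ∧ j * h ≤ r ∧ r < (j + 1) * h} : ℝ)) :
    u * ((y : ℝ) - x - 2 * h) ≤ (Set.ncard {r | r ∈ Finset.Ico x y ∧ r ∈ J₀} : ℝ) := by
  classical
  have hc : Set.ncard {r | r ∈ Finset.Ico x y ∧ r ∈ J₀} =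
      ((Finset.Ico x y).filter fun r => r ∈ J₀).card := by
    rw [← Set.ncard_coe_finset]
    congr 1
    ext r
    rw [Finset.coe_filter]
  rw [hc]
  set j₀ : ℕ := x / h + 1 with hj₀
  set j₁ : ℕ := y / h with hj₁
  have hh0 : 0 < h := hh
  have e1 : (y : ℝ) - x - 2 * h ≤ ((j₁ : ℝ) - j₀) * h := by
    have h3 : y < j₁ * h + h := Nat.lt_div_mul_add hh0
    have h4 : x / h * h ≤ x := Nat.div_mul_le_self _ _
    have h5 : j₀ * h = x / h * h + h := by rw [hj₀]; ring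
    have h7 : j₀ * h ≤ x + h := by omega
    have h6' : (y : ℝ) < j₁ * h + h := by exact_mod_cast h3
    have h7' : (j₀ : ℝ) * h ≤ x + h := by exact_mod_cast h7
    nlinarith
  refine (mul_le_mul_of_nonneg_left e1 hu).trans ?_
  rcases Nat.lt_or_ge j₁ j₀ with hlt | hge
  · have h1 : (j₁ : ℝ) - j₀ ≤ 0 := by
      have : (j₁ : ℝ) ≤ j₀ := by exact_mod_cast hlt.le
      linarith
    have h2 : u * (((j₁ : ℝ) - j₀) * h) ≤ 0 := by
      have h3 : (0 : ℝ) ≤ h := Nat.cast_nonneg _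
      have : 0 ≤ u * ((j₀ - (j₁ : ℝ)) * h) := mul_nonneg hu (mul_nonneg (by linarith) h3)
      nlinarith
    exact h2.trans (Nat.cast_nonneg _)
  have hblock : ∀ j, j₀ ≤ j → j ≤ j₁ →
      ((j : ℝ) - j₀) * (u * h) ≤
        (((Finset.Ico (j₀ * h) (j * h)).filter fun r => r ∈ J₀).card : ℝ) := by
    intro j hj hj'
    induction j, hj using Nat.le_induction with
    | base => simp
    | succ j hj ih =>
      have h3 := ih (by omega)
      have h4 : (j + 2) * h ≤ X := by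
        have h5 : (j + 1) * h ≤ y :=
          (Nat.mul_le_mul_right _ hj').trans (Nat.div_mul_le_self _ _)
        have h6 : (j + 2) * h = (j + 1) * h + h := by ring
        omega
      have h5 := hJ j h4
      have h6 : Set.ncard {r | r ∈ J₀ ∧ j * h ≤ r ∧ r < (j + 1) * h} =
          ((Finset.Ico (j * h) ((j + 1) * h)).filter fun r => r ∈ J₀).card := by
        rw [← Set.ncard_coe_finset]
        congr 1
        ext s
        simp only [Finset.coe_filter, Finset.mem_Ico, Set.mem_ofPred_eq]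
        tauto
      rw [h6] at h5
      have h7 : (Finset.Ico (j₀ * h) ((j + 1) * h)).filter (fun r => r ∈ J₀) =
          (Finset.Ico (j₀ * h) (j * h)).filter (fun r => r ∈ J₀) ∪
          (Finset.Ico (j * h) ((j + 1) * h)).filter (fun r => r ∈ J₀) := by
        rw [← Finset.filter_union, Finset.Ico_union_Ico_eq_Ico (Nat.mul_le_mul_right _ hj)
          (Nat.mul_le_mul_right _ (by omega))]
      have h8 : Disjoint ((Finset.Ico (j₀ * h) (j * h)).filter (fun r => r ∈ J₀))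
          ((Finset.Ico (j * h) ((j + 1) * h)).filter (fun r => r ∈ J₀)) :=
        (Finset.Ico_disjoint_Ico_consecutive _ _ _).mono (Finset.filter_subset _ _)
          (Finset.filter_subset _ _)
      rw [h7, Finset.card_union_of_disjoint h8]
      push_cast
      linarith
  have h1 := hblock j₁ hge le_rfl
  have h2 : ((Finset.Ico (j₀ * h) (j₁ * h)).filter fun r => r ∈ J₀).card ≤
      ((Finset.Ico x y).filter fun r => r ∈ J₀).card := by
    refine Finset.card_le_card (Finset.filter_subset_filter _ ?_)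
    refine Finset.Ico_subset_Ico ?_ (Nat.div_mul_le_self _ _)
    have h3 := Nat.lt_div_mul_add hh0 (a := x)
    have h5 : j₀ * h = x / h * h + h := by rw [hj₀]; ring
    omega
  have h3 : ((((Finset.Ico (j₀ * h) (j₁ * h)).filter fun r => r ∈ J₀).card : ℕ) : ℝ) ≤
      ((Finset.Ico x y).filter fun r => r ∈ J₀).card := by exact_mod_cast h2
  calc u * (((j₁ : ℝ) - j₀) * h) = ((j₁ : ℝ) - j₀) * (u * h) := by ring
    _ ≤ _ := h1
    _ ≤ _ := h3

open Classical in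
/-- The scales in the upper half whose rows are heavy. -/
noncomputable def hsc (J₀ : Set ℕ) (n : ℕ) (z : ℤ) : Finset ℕ :=
  (Finset.Ico (n / 2) n).filter fun i => (z + i).toNat ∈ J₀

/-- Many scales have a heavy row. -/
theorem hsc_card (J₀ : Set ℕ) {X h n : ℕ} (h1 : 1 ≤ h) (hn : 64 * h ≤ n) {u : ℝ} (hu : 0 ≤ u)
    (hJ : ∀ j : ℕ, (j + 2) * h ≤ X →
      u * h ≤ (Set.ncard {r | r ∈ J₀ ∧ j * h ≤ r ∧ r < (j + 1) * h} : ℝ)) {z : ℤ} (hz : 0 ≤ z)
    (hz' : z + n + h ≤ X) : u / 4 * n ≤ ((hsc J₀ n z).card : ℝ) := by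
  classical
  obtain ⟨x, rfl⟩ := Int.eq_ofNat_of_zero_le hz
  have h2 := count_int J₀ (X := X) (x := x + n / 2) (y := x + n) h1 (by omega) hu hJ
  have h3 : Set.ncard {r | r ∈ Finset.Ico (x + n / 2) (x + n) ∧ r ∈ J₀} =
      (hsc J₀ n x).card := by
    have e1 : {r | r ∈ Finset.Ico (x + n / 2) (x + n) ∧ r ∈ J₀} =
        (((hsc J₀ n x).map (addLeftEmbedding x) : Finset ℕ) : Set ℕ) := by
      ext r
      simp only [Finset.coe_map, Set.mem_image, Finset.mem_coe, addLeftEmbedding_apply,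
        Set.mem_ofPred_eq, Finset.mem_Ico, hsc, Finset.mem_filter]
      constructor
      · rintro ⟨⟨g1, g2⟩, g3⟩
        refine ⟨r - x, ⟨⟨by omega, by omega⟩, ?_⟩, by omega⟩
        have : (((x : ℕ) : ℤ) + ((r - x : ℕ) : ℤ)).toNat = r := by omega
        rw [this]
        exact g3
      · rintro ⟨i, ⟨⟨g1, g2⟩, g3⟩, rfl⟩
        refine ⟨⟨by omega, by omega⟩, ?_⟩
        have : (((x : ℕ) : ℤ) + (i : ℤ)).toNat = x + i := by omega
        rw [this] at g3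
        exact g3
    rw [e1, Set.ncard_coe_finset, Finset.card_map]
  rw [h3] at h2
  refine le_trans ?_ h2
  have e1 : ((n / 2 : ℕ) : ℝ) ≤ n / 2 := Nat.cast_div_le
  have e2 : (64 : ℝ) * h ≤ n := by exact_mod_cast hn
  have e3 : (0 : ℝ) ≤ n := Nat.cast_nonneg _
  have e4 : (n : ℝ) / 4 ≤ ((x + n : ℕ) : ℝ) - ((x + n / 2 : ℕ) : ℝ) - 2 * h := by
    push_cast
    linarith
  have := mul_le_mul_of_nonneg_left e4 hu
  linarith

end Pool.OC
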