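import Pool.Agent.H55.OC.Ker

/-!
# OC, stage B: density of the good partners, sizes in the cells, the good set
-/

set_option autoImplicit false

namespace Pool.OC

open Finset Real
open Pool.Agent.H49.Ent Pool.Agent.H32.Dense Pool.STK Pool.KAF Pool.OCT

open Classical in
/-- Many good partners on heavy rows. -/
theorem den_gen {d : Dat} {A : ℕ} (hOK : d.OK A) {h n : ℕ} (h1 : 1 ≤ h) (hn : 64 * h ≤ n) {u : ℝ}
    (hu : 0 ≤ u) {ω : d.Om} (hω : 0 < d.P ω) (J₀ : Set ℕ)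
    (hJ : ∀ j : ℕ, (j + 2) * h ≤ d.X →
      u * h ≤ (Set.ncard {r | r ∈ J₀ ∧ j * h ≤ r ∧ r < (j + 1) * h} : ℝ)) {z : ℤ} (hz : 0 ≤ z)
    (hz' : z + n + h ≤ d.X) (bad : ℕ → Set d.Om)
    (hb : ∑ i ∈ Finset.Ico (n / 2) n, ∑ v, d.kap i ω v * (if v ∈ bad i then 1 else 0) ≤
      u / 8 * n) :
    u / 8 * n ≤ ∑ i ∈ Finset.Ico (n / 2) n, ∑ v, d.kap i ω v *
      (if (z + i).toNat ∈ J₀ ∧ v ∉ bad i then 1 else 0) := by
  have hc := hsc_card J₀ h1 hn hu hJ hz hz'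
  have e1 : ((hsc J₀ n z).card : ℝ) =
      ∑ i ∈ Finset.Ico (n / 2) n, ∑ v, d.kap i ω v * (if (z + i).toNat ∈ J₀ then 1 else 0) := by
    unfold hsc
    rw [Finset.card_filter]
    push_cast
    refine Finset.sum_congr rfl fun i _ => ?_
    rw [← Finset.sum_mul, Dat.kap_sum hOK i hω, one_mul]
  rw [e1] at hc
  have e2 : ∑ i ∈ Finset.Ico (n / 2) n, ∑ v, d.kap i ω v * (if (z + i).toNat ∈ J₀ then 1 else 0) ≤
      ∑ i ∈ Finset.Ico (n / 2) n, (∑ v, d.kap i ω v *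
        (if (z + i).toNat ∈ J₀ ∧ v ∉ bad i then 1 else 0) +
        ∑ v, d.kap i ω v * (if v ∈ bad i then 1 else 0)) := by
    refine Finset.sum_le_sum fun i _ => ?_
    rw [← Finset.sum_add_distrib]
    refine Finset.sum_le_sum fun v _ => ?_
    rw [← mul_add]
    refine mul_le_mul_of_nonneg_left ?_ (Dat.kap_nonneg hOK i ω v)
    by_cases g1 : (z + i).toNat ∈ J₀
    · by_cases g2 : v ∈ bad i
      · rw [if_pos g1, if_pos g2]
        split_ifs <;> norm_num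
      · rw [if_pos g1, if_pos ⟨g1, g2⟩, if_neg g2]
        norm_num
    · rw [if_neg g1]
      split_ifs <;> norm_num
  rw [Finset.sum_add_distrib] at e2
  linarith

/-- The difference of the forms of two lines. -/
theorem zr_sub (d : Dat) (t₁ t₀ : d.Tau) (l l' : d.Lam) :
    d.ZR t₁ t₀ l - d.ZR t₁ t₀ l' =
      (d.th t₀ - d.th t₁) * ((d.beR l - d.S t₁ * d.omR l) - (d.beR l' - d.S t₁ * d.omR l')) -
      (d.S t₀ - d.S t₁) * ((d.yR l + d.th t₁ * d.omR l) - (d.yR l' + d.th t₁ * d.omR l')) -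
      (d.S t₀ - d.S t₁) * (d.th t₀ - d.th t₁) * (d.omR l - d.omR l') := by
  unfold Dat.ZR
  ring

/-- Sizes of a form in a cell. -/
theorem geo_B {M τ σ D B Y O Al Kc δ U : ℝ} (hM : 0 < M) (hAl : 0 < Al) (hKc : 0 ≤ Kc)
    (hD : M * D = τ * B - σ * M * Y - σ * M * τ * Al * O) (hσ : M * |σ| ≤ Kc * |τ|)
    (hτ : |τ| * Al ≤ δ) (hB : |B| ≤ U) (hY : |Y| ≤ U) (hO : |O| ≤ U) :
    M * |D| ≤ |τ| * ((1 + Kc + Kc * δ) * U) ∧
      (τ ≠ 0 → |B - M * σ / τ * Y| ≤ M * |D| / |τ| + Kc * δ * U) := by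
  have hU : 0 ≤ U := (abs_nonneg B).trans hB
  have hδ : 0 ≤ δ := le_trans (by positivity) hτ
  have a1 : |σ * M * Y| ≤ Kc * |τ| * U := by
    rw [abs_mul, abs_mul, abs_of_pos hM, mul_comm |σ| M]
    exact mul_le_mul hσ hY (abs_nonneg _) (by positivity)
  have a2 : |σ * M * τ * Al * O| ≤ Kc * |τ| * (δ * U) := by
    have e1 : |σ * M * τ * Al * O| = (M * |σ|) * ((|τ| * Al) * |O|) := by
      rw [abs_mul, abs_mul, abs_mul, abs_mul, abs_of_pos hM, abs_of_pos hAl]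
      ring
    rw [e1]
    exact mul_le_mul hσ (mul_le_mul hτ hO (abs_nonneg _) hδ) (by positivity) (by positivity)
  have a3 : |τ * B| ≤ |τ| * U := by
    rw [abs_mul]
    exact mul_le_mul_of_nonneg_left hB (abs_nonneg _)
  constructor
  · have e1 : M * |D| = |M * D| := by rw [abs_mul, abs_of_pos hM]
    rw [e1, hD]
    have b1 := abs_sub (τ * B - σ * M * Y) (σ * M * τ * Al * O)
    have b2 := abs_sub (τ * B) (σ * M * Y)
    nlinarith
  · intro h0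
    have hτ0 : 0 < |τ| := abs_pos.2 h0
    have e1 : B - M * σ / τ * Y = M * D / τ + σ * M * τ * Al * O / τ := by
      rw [hD]
      field_simp
      ring
    rw [e1]
    refine (abs_add_le _ _).trans (add_le_add ?_ ?_)
    · rw [abs_div, abs_mul, abs_of_pos hM]
    · rw [abs_div, div_le_iff₀ hτ0]
      linarith

/-- The scale of a number. -/
theorem sc_le {x : ℝ} {N : ℕ} (h : (2 : ℝ) ^ (-(N : ℤ)) ≤ |x|) : sc x ≤ N := by
  unfold sc
  have h0 : 0 < |x| := lt_of_lt_of_le (by positivity) h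
  have h1 : -(N : ℤ) ≤ Int.log 2 |x| := (Int.zpow_le_iff_le_log (by norm_num) h0).1 (by
    push_cast
    exact h)
  omega

theorem sc_nonneg {x : ℝ} (h : |x| ≤ 1) : 0 ≤ sc x := by
  unfold sc
  rcases eq_or_ne x 0 with rfl | hx
  · simp
  have h1 : Int.log 2 |x| ≤ Int.log 2 (1 : ℝ) := Int.log_mono_right (abs_pos.2 hx) h
  rw [Int.log_one_right] at h1
  omega

theorem cell_B {d : Dat} {m : d.Lam → ℤ} {s : ℕ} {v w : d.Om × d.Om}
    (h : cB (d.x0 m) d.y1 d.omT (d.beT m) s v = cB (d.x0 m) d.y1 d.omT (d.beT m) s w) :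
    d.T v.1 = d.T w.1 ∧ d.T v.2 = d.T w.2 ∧ m (d.L v.1) = m (d.L w.1) ∧
      |d.y1 v - d.y1 w| ≤ 1 / 2 ^ s ∧ |d.omT v - d.omT w| ≤ 1 / 2 ^ s ∧
      |d.beT m v - d.beT m w| ≤ 1 / 2 ^ s := by
  unfold cB cF Dat.x0 at h
  simp only [Prod.mk.injEq] at h
  obtain ⟨⟨⟨h1, h2, h3⟩, h4, h5⟩, h6⟩ := h
  have hs : (0 : ℝ) < 2 ^ s := by positivity
  exact ⟨h1, h2, h3, fl_cell hs d.y1 h4, fl_cell hs d.omT h5, fl_cell hs (d.beT m) h6⟩

/-- The two forms of the cells. -/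
theorem cB_iff {d : Dat} {m : d.Lam → ℤ} (s : ℕ) (v w : d.Om × d.Om) :
    d.LB m s v = d.LB m s w ↔
      cB (d.x0 m) d.y1 d.omT (d.beT m) s v = cB (d.x0 m) d.y1 d.omT (d.beT m) s w := by
  have e1 : ∀ w : d.Om × d.Om, ⌊(2 : ℝ) ^ ((s : ℤ) - sc (d.ta w)) * d.omR (d.L w.1)⌋ =
      fl (2 ^ s) d.omT w := by
    intro w
    unfold Pool.OCT.fl Dat.omT
    rw [← mul_assoc, ← zpow_natCast (2 : ℝ) s, ← zpow_add₀ (by norm_num)]
    rfl
  have e2 : ∀ w : d.Om × d.Om, ⌊(2 : ℝ) ^ ((s : ℤ) + m (d.L w.1)) *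
      (d.beR (d.L w.1) - d.S (d.T w.1) * d.omR (d.L w.1))⌋ = fl (2 ^ s) (d.beT m) w := by
    intro w
    unfold Pool.OCT.fl Dat.beT
    rw [← mul_assoc, ← zpow_natCast (2 : ℝ) s, ← zpow_add₀ (by norm_num)]
  have e3 : ∀ w : d.Om × d.Om, ⌊(2 : ℝ) ^ s * (d.yR (d.L w.1) +
      d.th (d.T w.1) * d.omR (d.L w.1))⌋ = fl (2 ^ s) d.y1 w := fun w => rfl
  unfold Dat.LB Dat.GB cB cF Dat.x0
  simp only [Prod.mk.injEq]
  rw [e1, e1, e2, e2, e3, e3]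
  tauto

section

variable {Ω : Type} [Fintype Ω] {S T : Type}

theorem law_iff {p : Ω → ℝ} {b : Ω → S} {b' : Ω → T} (h : ∀ v w, b v = b w ↔ b' v = b' w) (w : Ω) :
    law p b (b w) = law p b' (b' w) := by
  classical
  unfold law
  refine Finset.sum_congr rfl fun v _ => ?_
  by_cases h1 : b v = b w
  · rw [if_pos h1, if_pos ((h v w).1 h1)]
  · rw [if_neg h1, if_neg (fun h2 => h1 ((h v w).2 h2))]

theorem cond_iff {p : Ω → ℝ} {b : Ω → S} {b' : Ω → T} (h : ∀ v w, b v = b w ↔ b' v = b' w)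
    (w : Ω) : cond p b (b w) = cond p b' (b' w) := by
  classical
  funext v
  unfold Pool.Agent.H49.Ent.cond
  rw [law_iff h w]
  by_cases h1 : b v = b w
  · rw [if_pos h1, if_pos ((h v w).1 h1)]
  · rw [if_neg h1, if_neg (fun h2 => h1 ((h v w).2 h2))]

theorem dbl_iff {p : Ω → ℝ} {b : Ω → S} {b' : Ω → T} (h : ∀ v w, b v = b w ↔ b' v = b' w) :
    dbl p b = dbl p b' := by
  classical
  funext w
  unfold dbl glue
  rw [law_iff h w.1]
  by_cases h1 : b w.1 = b w.2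
  · rw [if_pos h1, if_pos ((h _ _).1 h1)]
  · rw [if_neg h1, if_neg (fun h2 => h1 ((h _ _).2 h2))]

end

/-! ### admissible partners of the first sample -/

/-- The admissible times. -/
def Wb (d : Dat) (n k' a i : ℕ) : Set (ℤ × d.Tau × d.Tau × d.Tau) :=
  {x | (2 : ℝ) ^ (-((n / 4 : ℕ) : ℤ)) ≤ |d.th x.2.2.1 - d.th x.2.1| ∧
    (2 : ℝ) ^ (-((i : ℤ) + k')) ≤ |d.th x.2.2.2 - d.th x.2.1| ∧
    |d.th x.2.2.2 - d.th x.2.1| ≤ (2 : ℝ) ^ (-(i : ℤ)) ∧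
    |d.S x.2.2.2 - d.S x.2.1| ≤ (2 : ℝ) ^ ((a : ℤ) + 4 - x.1) * |d.th x.2.2.2 - d.th x.2.1|}

/-- The forms of admissible partners in a cell. -/
theorem cell_form {d : Dat} {m : d.Lam → ℤ} {n k' a i s : ℕ} (hi : n / 2 ≤ i) {v w : d.Om × d.Om}
    {t₃ : d.Tau} (hW : (m (d.L w.1), d.T w.1, d.T w.2, t₃) ∈ Wb d n k' a i)
    (hG : cB (d.x0 m) d.y1 d.omT (d.beT m) s v = cB (d.x0 m) d.y1 d.omT (d.beT m) s w) :
    |d.ZR (d.T w.1) t₃ (d.L w.1) - d.ZR (d.T w.1) t₃ (d.L v.1)| ≤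
      (2 : ℝ) ^ ((a : ℤ) + 6 - (s + (m (d.L w.1) + i))) ∧
    |(d.beT m v - d.beT m w) - (2 : ℝ) ^ m (d.L w.1) * (d.S t₃ - d.S (d.T w.1)) /
        (d.th t₃ - d.th (d.T w.1)) * (d.y1 v - d.y1 w)| ≤
      (2 : ℝ) ^ (m (d.L w.1) + i + k') *
        |d.ZR (d.T w.1) t₃ (d.L w.1) - d.ZR (d.T w.1) t₃ (d.L v.1)| +
        2 ^ (a + 4) / 2 ^ (n / 4) / 2 ^ s ∧
    |(2 : ℝ) ^ m (d.L w.1) * (d.S t₃ - d.S (d.T w.1)) / (d.th t₃ - d.th (d.T w.1))| ≤
      2 ^ (a + 4) := by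
  obtain ⟨g1, g2, g3, hy, hom, hbe⟩ := cell_B hG
  obtain ⟨w1, w2, w3, w4⟩ := hW
  simp only at w1 w2 w3 w4
  set M : ℝ := (2 : ℝ) ^ m (d.L w.1) with hM
  set τ : ℝ := d.th t₃ - d.th (d.T w.1) with hτ
  set σ : ℝ := d.S t₃ - d.S (d.T w.1) with hσ
  set D : ℝ := d.ZR (d.T w.1) t₃ (d.L w.1) - d.ZR (d.T w.1) t₃ (d.L v.1) with hD
  have hM0 : 0 < M := by positivity
  have hτ0 : 0 < |τ| := lt_of_lt_of_le (by positivity) w2
  have hτ1 : τ ≠ 0 := abs_pos.1 hτ0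
  have hal : sc (d.ta w) ≤ (n / 4 : ℕ) := sc_le w1
  have hta : d.ta v = d.ta w := by
    unfold Dat.ta
    rw [g1, g2]
  set Al : ℝ := (2 : ℝ) ^ sc (d.ta w) with hAl
  have hAl0 : 0 < Al := by positivity
  have hσ' : M * |σ| ≤ 2 ^ (a + 4) * |τ| := by
    have h1 := mul_le_mul_of_nonneg_left w4 hM0.le
    have h2 : M * ((2 : ℝ) ^ ((a : ℤ) + 4 - m (d.L w.1)) * |τ|) = 2 ^ (a + 4) * |τ| := by
      rw [← mul_assoc, hM, ← zpow_add₀ (by norm_num), ← zpow_natCast (2 : ℝ) (a + 4)]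
      congr 2
      push_cast
      ring
    rw [h2] at h1
    exact h1
  have hτ' : |τ| * Al ≤ 1 / 2 ^ (n / 4) := by
    have h1 : |τ| * Al ≤ (2 : ℝ) ^ (-(i : ℤ)) * (2 : ℝ) ^ ((n / 4 : ℕ) : ℤ) :=
      mul_le_mul w3 (zpow_le_zpow_right₀ (by norm_num) hal) hAl0.le (by positivity)
    refine h1.trans ?_
    rw [← zpow_add₀ (by norm_num), one_div, ← zpow_natCast (2 : ℝ) (n / 4), ← zpow_neg]
    refine zpow_le_zpow_right₀ (by norm_num) ?_
    omega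
  have hid : M * D = τ * (d.beT m w - d.beT m v) - σ * M * (d.y1 w - d.y1 v) -
      σ * M * τ * Al * (d.omT w - d.omT v) := by
    have h1 := zr_sub d (d.T w.1) t₃ (d.L w.1) (d.L v.1)
    rw [← hD, ← hτ, ← hσ] at h1
    unfold Dat.beT Dat.y1 Dat.omT
    rw [g1, g3, hta, h1]
    have h2 : Al * (2 : ℝ) ^ (-sc (d.ta w)) = 1 := by
      rw [hAl, ← zpow_add₀ (by norm_num), add_neg_cancel, zpow_zero]
    have h3 : σ * M * τ * Al * ((2 : ℝ) ^ (-sc (d.ta w)) * d.omR (d.L w.1) -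
        (2 : ℝ) ^ (-sc (d.ta w)) * d.omR (d.L v.1)) =
        σ * M * τ * (d.omR (d.L w.1) - d.omR (d.L v.1)) * (Al * (2 : ℝ) ^ (-sc (d.ta w))) := by
      ring
    rw [h3, h2]
    ring
  have hgeo := geo_B (Kc := 2 ^ (a + 4)) (δ := 1 / 2 ^ (n / 4)) (U := 1 / 2 ^ s) hM0 hAl0
    (by positivity) hid hσ' hτ' (by rw [abs_sub_comm]; exact hbe) (by rw [abs_sub_comm]; exact hy)
    (by rw [abs_sub_comm]; exact hom)
  refine ⟨?_, ?_, ?_⟩
  · have h1 : M * |D| ≤ (2 : ℝ) ^ (-(i : ℤ)) * ((2 ^ (a + 6)) * (1 / 2 ^ s)) := by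
      refine hgeo.1.trans (mul_le_mul w3 ?_ (by positivity) (by positivity))
      refine mul_le_mul_of_nonneg_right ?_ (by positivity)
      have h2 : (1 : ℝ) / 2 ^ (n / 4) ≤ 1 := by
        rw [div_le_one (by positivity)]
        exact one_le_pow₀ (by norm_num)
      have h3 : (1 : ℝ) ≤ 2 ^ (a + 4) := one_le_pow₀ (by norm_num)
      have h4 : (2 : ℝ) ^ (a + 6) = 4 * 2 ^ (a + 4) := by
        rw [show a + 6 = (a + 4) + 2 by ring, pow_add]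
        ring
      rw [h4]
      nlinarith
    have h2 : (2 : ℝ) ^ (-(i : ℤ)) * ((2 ^ (a + 6)) * (1 / 2 ^ s)) =
        M * (2 : ℝ) ^ ((a : ℤ) + 6 - (s + (m (d.L w.1) + i))) := by
      rw [hM, ← zpow_natCast (2 : ℝ) (a + 6), one_div, ← zpow_natCast (2 : ℝ) s, ← zpow_neg,
        ← zpow_add₀ (by norm_num), ← zpow_add₀ (by norm_num), ← zpow_add₀ (by norm_num)]
      congr 1
      push_cast
      ring
    rw [h2] at h1
    exact le_of_mul_le_mul_left h1 hM0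
  · have h1 := hgeo.2 hτ1
    have h2 : (d.beT m v - d.beT m w) - M * σ / τ * (d.y1 v - d.y1 w) =
        -((d.beT m w - d.beT m v) - M * σ / τ * (d.y1 w - d.y1 v)) := by ring
    rw [h2, abs_neg]
    refine h1.trans (add_le_add ?_ (le_of_eq ?_))
    · rw [div_le_iff₀ hτ0]
      have h3 : (2 : ℝ) ^ (m (d.L w.1) + i + k') * |D| * |τ| =
          M * |D| * ((2 : ℝ) ^ ((i : ℤ) + k') * |τ|) := by
        rw [hM, add_assoc, zpow_add₀ (by norm_num)]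
        ring
      rw [h3]
      have h4 : 1 ≤ (2 : ℝ) ^ ((i : ℤ) + k') * |τ| := by
        have h5 := mul_le_mul_of_nonneg_left w2
          (by positivity : (0 : ℝ) ≤ (2 : ℝ) ^ ((i : ℤ) + k'))
        rw [← zpow_add₀ (by norm_num), add_neg_cancel, zpow_zero] at h5
        exact h5
      have h5 : 0 ≤ M * |D| := by positivity
      nlinarith
    · ring
  · rw [abs_div, abs_mul, abs_of_pos hM0, div_le_iff₀ hτ0]
    exact hσ'

end Pool.OC
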