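import Pool.Agent.H55.OC.STB
import Pool.Agent.H32.Dense.Split

/-!
# OC, stage B: the choice of the forms

A sample has two families of partners (of the first and of the second base time). If most samples
see, at most steps, partners of both kinds with almost determined forms, then most cells carry two
almost determined forms.
-/

set_option autoImplicit false

namespace Pool.OCT

open Finset Real
open Pool.Agent.H49.Ent Pool.Agent.H32.Dense Pool.STK Pool.KAF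

section

variable {Ω : Type} [Fintype Ω] {χ γ : Type}

/-- The probability of an event is at most the maximum of its conditional probabilities. -/
lemma Pr_le_of_cond {p : Ω → ℝ} (hp : IsLaw p) (V : Ω → γ) (E : Set Ω) (c : ℝ)
    (h : ∀ v, 0 < law p V v → Pr (cond p V v) E ≤ c) : Pr p E ≤ c := by
  classical
  have h1 : ∀ (q : Ω → ℝ), Pr q E = Ex q (fun ω => if ω ∈ E then 1 else 0) := by
    intro q
    rw [Pool.KAF.Pr_eq]
    unfold Ex
    refine Finset.sum_congr rfl fun ω _ => ?_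
    rw [mul_ite, mul_one, mul_zero]
  rw [h1, Ex_split hp.nonneg _ V]
  calc ∑ j ∈ univ.image V, law p V j * Ex (cond p V j) (fun ω => if ω ∈ E then 1 else 0)
      ≤ ∑ j ∈ univ.image V, law p V j * c := by
        refine Finset.sum_le_sum fun j _ => ?_
        rcases (law_nonneg hp.nonneg V j).eq_or_lt with h0 | h0
        · rw [← h0, zero_mul, zero_mul]
        · rw [← h1]
          exact mul_le_mul_of_nonneg_left (h j h0) h0.le
    _ = c := by rw [← Finset.sum_mul, sum_law, hp.sum_one, one_mul]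

/-- If most samples are witnesses, then most cells have a witness, and a property which fails
rarely in the cell of a witness fails rarely. -/
lemma pick {p : Ω → ℝ} (hp : IsLaw p) (G : Ω → γ) (T : Set Ω) (bad : γ → Set Ω) {ε : ℝ} (hε : 0 ≤ ε)
    (h : ∀ g, (∃ ω ∈ T, 0 < p ω ∧ G ω = g) → Pr (cond p G g) (bad g) ≤ ε) :
    Pr p {ω | ω ∈ bad (G ω)} ≤ Pr p Tᶜ + ε := by
  classical
  set E : Set Ω := {ω | (∃ ω' ∈ T, 0 < p ω' ∧ G ω' = G ω) ∧ ω ∈ bad (G ω)} with hE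
  have h1 : Pr p E ≤ ε := by
    refine Pr_le_of_cond hp G E ε fun v hv => ?_
    by_cases hg : ∃ ω ∈ T, 0 < p ω ∧ G ω = v
    · refine le_trans (Pr_mono (cond_nonneg hp.nonneg G v) ?_) (h v hg)
      intro ω hω hωE
      have hGv : G ω = v := by
        by_contra hne
        unfold Pool.Agent.H49.Ent.cond at hω
        rw [if_neg hne] at hω
        exact lt_irrefl _ hω
      have h2 := hωE.2
      rwa [hGv] at h2
    · have h2 : Pr (cond p G v) E = 0 := by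
        rw [Pool.KAF.Pr_eq]
        refine Finset.sum_eq_zero fun ω _ => ?_
        by_cases hω : ω ∈ E
        · rw [if_pos hω]
          unfold Pool.Agent.H49.Ent.cond
          rw [if_neg]
          intro hGv
          apply hg
          obtain ⟨ω', a1, a2, a3⟩ := hω.1
          exact ⟨ω', a1, a2, a3.trans hGv⟩
        · rw [if_neg hω]
      rw [h2]
      exact hε
  refine (le_trans (Pr_mono hp.nonneg ?_) (Pr_union_le hp.nonneg Tᶜ E)).trans (by linarith)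
  intro ω hω hb
  by_cases hT : ω ∈ T
  · right
    exact ⟨⟨ω, hT, hω, rfl⟩, hb⟩
  · left
    exact hT

/-- Samples without a witness are rare. -/
lemma rare {p : Ω → ℝ} (hp : IsLaw p) {Pa : Type} [Fintype Pa] (κ : Ω → Pa → ℝ)
    (hκ : ∀ ω a, 0 ≤ κ ω a) (w far : Ω → Pa → ℝ) (hw : ∀ ω a, 0 ≤ w ω a)
    (hfar : ∀ ω a, 0 ≤ far ω a) (Gd : Set Ω) {u ε ρ : ℝ} (hu : 0 < u) (hε : 0 < ε)
    (hden : ∀ ω ∈ Gd, 0 < p ω → u ≤ ∑ a, κ ω a * w ω a)
    (hrow : ∑ ω, p ω * ∑ a, κ ω a * (w ω a * far ω a) ≤ ρ) :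
    Pr p {ω | ω ∈ Gd ∧ ¬ ∃ a, 0 < w ω a ∧ far ω a ≤ ε} ≤ ρ / (ε * u) := by
  classical
  rw [le_div_iff₀ (by positivity), Pool.KAF.Pr_eq, Finset.sum_mul]
  refine le_trans (Finset.sum_le_sum fun ω _ => ?_) hrow
  rcases (hp.nonneg ω).eq_or_lt with h0 | h0
  · rw [← h0, ite_self, zero_mul, zero_mul]
  by_cases hω : ω ∈ {ω | ω ∈ Gd ∧ ¬ ∃ a, 0 < w ω a ∧ far ω a ≤ ε}
  · rw [if_pos hω]
    refine mul_le_mul_of_nonneg_left ?_ h0.le
    have h1 := hden ω hω.1 h0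
    calc ε * u ≤ ε * ∑ a, κ ω a * w ω a := mul_le_mul_of_nonneg_left h1 hε.le
      _ = ∑ a, κ ω a * (w ω a * ε) := by
        rw [Finset.mul_sum]
        exact Finset.sum_congr rfl fun a _ => by ring
      _ ≤ ∑ a, κ ω a * (w ω a * far ω a) := by
        refine Finset.sum_le_sum fun a _ => mul_le_mul_of_nonneg_left ?_ (hκ ω a)
        rcases (hw ω a).eq_or_lt with h2 | h2
        · rw [← h2, zero_mul, zero_mul]
        · refine mul_le_mul_of_nonneg_left ?_ h2.le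
          by_contra h3
          exact hω.2 ⟨a, h2, (not_le.1 h3).le⟩
  · rw [if_neg hω, zero_mul]
    exact mul_nonneg h0.le (Finset.sum_nonneg fun a _ =>
      mul_nonneg (hκ ω a) (mul_nonneg (hw ω a) (hfar ω a)))

/-- The event that the first form is not constant at the centre `ω`. -/
def far1 (y be : Ω → ℝ) (ρ C : ℝ) (ω : Ω) : Set Ω :=
  {v | ρ < |(be v - be ω) - C * (y v - y ω)|}

/-- The event that the second form is not constant at the centre `ω`. -/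
def far2 (y om be : Ω → ℝ) (ρ C s d : ℝ) (ω : Ω) : Set Ω :=
  {v | ρ < |((be v - be ω) - s * (om v - om ω)) -
    C * ((y v - y ω) + d * (om v - om ω))|}

/-- **Stage B, with partners.** `κ`, `κ'` are the laws of the partners of the two base times,
`C1`, `C2` the slopes of the forms, `W`, `W'` the weights of the rows (zero for partners which are
not admissible), `La` the limit slope, `sg` and `dd` the differences of the frames and of the two
base times. -/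
theorem stb_sel {p : Ω → ℝ} (hp : IsLaw p) (x0 : Ω → χ) (y0 y om be t1 : Ω → ℝ) (k i1 n : ℕ)
    (ht1 : Det p x0 t1) (ht1' : ∀ ω, |t1 ω| ≤ 1) (hy : ∀ ω, y ω = y0 ω + t1 ω * om ω)
    {Pa Pa' : Type} [Fintype Pa] [Fintype Pa'] (κ : Ω → Pa → ℝ) (κ' : Ω → Pa' → ℝ)
    (hκ : ∀ ω a, 0 ≤ κ ω a) (hκ' : ∀ ω a, 0 ≤ κ' ω a) (C1 : Ω → Pa → ℝ) (C2 : Ω → Pa' → ℝ)
    (La sg dd : Ω → ℝ) (W : ℕ → Ω → Pa → ℝ) (W' : ℕ → Ω → Pa' → ℝ)
    (hW : ∀ j ω a, 0 ≤ W j ω a) (hW' : ∀ j ω a, 0 ≤ W' j ω a) (Gd : Set Ω)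
    {r K d w0 Mb ha hya u ε e e' : ℝ}
    (hyb : ∀ ω, |y ω| ≤ 2) (homb : ∀ ω, |om ω| ≤ 1) (hbb : ∀ ω, |be ω| ≤ Mb)
    (hr : 0 ≤ r) (hK : 0 ≤ K) (hd : 0 ≤ d) (hw : 0 < w0) (hu : 0 < u) (hε : 0 < ε)
    (hWa : ∀ j ω a, ω ∈ Gd → 0 < W j ω a → |C1 ω a| ≤ K ∧ |C1 ω a - La ω| ≤ d / 2)
    (hWa' : ∀ j ω a, ω ∈ Gd → 0 < W' j ω a → |C2 ω a - La ω| ≤ d / 2)
    (hGd : ∀ ω ∈ Gd, w0 / 2 ^ i1 + d / 2 * |dd ω| ≤ |sg ω + La ω * dd ω|)
    (hden : ∀ j < n, ∀ ω ∈ Gd, 0 < p ω → u ≤ ∑ a, κ ω a * W j ω a)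
    (hden' : ∀ j < n, ∀ ω ∈ Gd, 0 < p ω → u ≤ ∑ a, κ' ω a * W' j ω a)
    (hrow : ∑ j ∈ range n, ∑ ω, p ω * ∑ a, κ ω a * (W j ω a *
      Pr (cond p (cG x0 y om be k i1 j) (cG x0 y om be k i1 j ω))
        (far1 y be (r / 2 ^ (j * k)) (C1 ω a) ω)) ≤ e)
    (hrow' : ∑ j ∈ range n, ∑ ω, p ω * ∑ a, κ' ω a * (W' j ω a *
      Pr (cond p (cG x0 y om be k i1 j) (cG x0 y om be k i1 j ω))
        (far2 y om be (r / 2 ^ (j * k)) (C2 ω a) (sg ω) (dd ω) ω)) ≤ e')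
    (hHa : ha ≤ CH p (fl (2 ^ (n * k)) om) x0)
    (hHy : hya ≤ CH p (fl (2 ^ (n * k)) y0) (fun ω => (fl (2 ^ (n * k)) om ω, x0 ω))) :
    ha + hya ≤ (i1 + 10) * Real.log 2 + Real.log (4 * Mb + 3) +
      n * (k * Real.log 2 + 2 * Real.log 2 + Real.log (2 ^ (k + 1) * (r + K / 2 ^ k) + 2) +
        Real.log (2 ^ (k + 1) * ((2 * r + d) / w0) + 2)) +
      3 * (n * (Pr p Gdᶜ + ε) + (e + e') / (ε * u)) * (k * Real.log 2) := by
  classical
  set G : ℕ → Ω → (χ × ℤ × ℤ) × ℤ := fun j => cG x0 y om be k i1 j with hG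
  set F1 : ℕ → Ω → Pa → ℝ := fun j ω a => Pr (cond p (G j) (G j ω))
    (far1 y be (r / 2 ^ (j * k)) (C1 ω a) ω) with hF1
  set F2 : ℕ → Ω → Pa' → ℝ := fun j ω a => Pr (cond p (G j) (G j ω))
    (far2 y om be (r / 2 ^ (j * k)) (C2 ω a) (sg ω) (dd ω) ω) with hF2
  have hPr0 : ∀ (g : (χ × ℤ × ℤ) × ℤ) (j : ℕ) (E : Set Ω), 0 ≤ Pr (cond p (G j) g) E := by
    intro g j E
    exact Pr_nonneg (cond_nonneg hp.nonneg _ _) _
  set T : ℕ → Set Ω := fun j => {ω | ω ∈ Gd ∧ (∃ a, 0 < W j ω a ∧ F1 j ω a ≤ ε) ∧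
    ∃ a, 0 < W' j ω a ∧ F2 j ω a ≤ ε} with hT
  -- rows of the step `j`
  set ρ : ℕ → ℝ := fun j => ∑ ω, p ω * ∑ a, κ ω a * (W j ω a * F1 j ω a) with hρ
  set ρ' : ℕ → ℝ := fun j => ∑ ω, p ω * ∑ a, κ' ω a * (W' j ω a * F2 j ω a) with hρ'
  have hTc : ∀ j < n, Pr p (T j)ᶜ ≤ Pr p Gdᶜ + ρ j / (ε * u) + ρ' j / (ε * u) := by
    intro j hj
    have h1 := rare hp κ hκ (W j) (F1 j) (hW j) (fun ω a => hPr0 _ _ _) Gd hu hε (hden j hj)
      (le_refl (ρ j))
    have h2 := rare hp κ' hκ' (W' j) (F2 j) (hW' j) (fun ω a => hPr0 _ _ _) Gd hu hε (hden' j hj)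
      (le_refl (ρ' j))
    have h3 := Pr_union_le hp.nonneg (Gdᶜ ∪ {ω | ω ∈ Gd ∧ ¬ ∃ a, 0 < W j ω a ∧ F1 j ω a ≤ ε})
      {ω | ω ∈ Gd ∧ ¬ ∃ a, 0 < W' j ω a ∧ F2 j ω a ≤ ε}
    have h4 := Pr_union_le hp.nonneg Gdᶜ {ω | ω ∈ Gd ∧ ¬ ∃ a, 0 < W j ω a ∧ F1 j ω a ≤ ε}
    have h5 : Pr p (T j)ᶜ ≤ Pr p ((Gdᶜ ∪ {ω | ω ∈ Gd ∧ ¬ ∃ a, 0 < W j ω a ∧ F1 j ω a ≤ ε}) ∪
        {ω | ω ∈ Gd ∧ ¬ ∃ a, 0 < W' j ω a ∧ F2 j ω a ≤ ε}) := by
      refine Pr_mono hp.nonneg fun ω _ hω => ?_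
      by_contra hc
      simp only [Set.mem_union, not_or] at hc
      obtain ⟨⟨c1, c2⟩, c3⟩ := hc
      have c1' : ω ∈ Gd := not_not.1 c1
      apply hω
      refine ⟨c1', ?_, ?_⟩
      · by_contra h6
        exact c2 ⟨c1', h6⟩
      · by_contra h6
        exact c3 ⟨c1', h6⟩
    linarith
  -- the witnesses of the cells
  have hex : ∀ (j : ℕ) (g : (χ × ℤ × ℤ) × ℤ), (∃ ω ∈ T j, 0 < p ω ∧ G j ω = g) →
      ∃ (ω : Ω) (a : Pa) (a' : Pa'), ω ∈ T j ∧ 0 < p ω ∧ G j ω = g ∧ 0 < W j ω a ∧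
        F1 j ω a ≤ ε ∧ 0 < W' j ω a' ∧ F2 j ω a' ≤ ε := by
    rintro j g ⟨ω, h1, h2, h3⟩
    obtain ⟨h4, ⟨a, h5, h6⟩, ⟨a', h7, h8⟩⟩ := id h1
    exact ⟨ω, a, a', h1, h2, h3, h5, h6, h7, h8⟩
  choose wf af bf hs using hex
  -- the functions of the cells
  set chi : ℕ → (χ × ℤ × ℤ) × ℤ → ℝ := fun j g =>
    if h : ∃ ω ∈ T j, 0 < p ω ∧ G j ω = g then
      C1 (wf j g h) (af j g h) else 0 with hchi
  set chi' : ℕ → (χ × ℤ × ℤ) × ℤ → ℝ := fun j g =>
    if h : ∃ ω ∈ T j, 0 < p ω ∧ G j ω = g then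
      C2 (wf j g h) (bf j g h) else 0 with hchi'
  set sgc : ℕ → (χ × ℤ × ℤ) × ℤ → ℝ := fun j g =>
    if h : ∃ ω ∈ T j, 0 < p ω ∧ G j ω = g then sg (wf j g h) else w0 / 2 ^ i1 with hsgc
  set ddc : ℕ → (χ × ℤ × ℤ) × ℤ → ℝ := fun j g =>
    if h : ∃ ω ∈ T j, 0 < p ω ∧ G j ω = g then dd (wf j g h) else 0 with hddc
  set cc : ℕ → (χ × ℤ × ℤ) × ℤ → ℝ := fun j g =>
    if h : ∃ ω ∈ T j, 0 < p ω ∧ G j ω = g then
      be (wf j g h) - chi j g * y (wf j g h) else 0 with hcc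
  set cc' : ℕ → (χ × ℤ × ℤ) × ℤ → ℝ := fun j g =>
    if h : ∃ ω ∈ T j, 0 < p ω ∧ G j ω = g then
      (be (wf j g h) - sgc j g * om (wf j g h)) -
        chi' j g * (y (wf j g h) + ddc j g * om (wf j g h)) else 0 with hcc'
  have hmain := stb_main hp x0 y0 y om be t1 k i1 n ht1 ht1' hy chi chi' cc cc' sgc ddc
    (fun j => Pr p (T j)ᶜ + ε) (fun j => Pr p (T j)ᶜ + ε) (r := r) (K := K) (d := d) (w0 := w0)
    (Mb := Mb) hyb homb hbb hr hK hd hw ?_ ?_ ?_ ?_ ?_ hHa hHy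
  · refine hmain.trans ?_
    have hl : 0 ≤ (k : ℝ) * Real.log 2 := by positivity
    have h1 : ∑ j ∈ range n, (2 * (Pr p (T j)ᶜ + ε) + (Pr p (T j)ᶜ + ε)) ≤
        3 * (n * (Pr p Gdᶜ + ε) + (e + e') / (ε * u)) := by
      have h2 : ∑ j ∈ range n, (2 * (Pr p (T j)ᶜ + ε) + (Pr p (T j)ᶜ + ε)) ≤
          ∑ j ∈ range n, (3 * (Pr p Gdᶜ + ε) + 3 / (ε * u) * ρ j + 3 / (ε * u) * ρ' j) := by
        refine Finset.sum_le_sum fun j hj => ?_
        have h3 := hTc j (Finset.mem_range.1 hj)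
        have h4 : 3 / (ε * u) * ρ j + 3 / (ε * u) * ρ' j =
            3 * (ρ j / (ε * u) + ρ' j / (ε * u)) := by ring
        linarith
      refine h2.trans ?_
      rw [Finset.sum_add_distrib, Finset.sum_add_distrib, Finset.sum_const, card_range,
        nsmul_eq_mul, ← Finset.mul_sum, ← Finset.mul_sum]
      have h5 : 0 ≤ 3 / (ε * u) := by positivity
      have h6 := mul_le_mul_of_nonneg_left hrow h5
      have h7 := mul_le_mul_of_nonneg_left hrow' h5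
      have h8 : 3 * (n * (Pr p Gdᶜ + ε) + (e + e') / (ε * u)) =
          n * (3 * (Pr p Gdᶜ + ε)) + 3 / (ε * u) * e + 3 / (ε * u) * e' := by ring
      rw [h8]
      have h9 : ∑ j ∈ range n, ρ j = ∑ j ∈ range n, ∑ ω, p ω * ∑ a, κ ω a * (W j ω a *
        Pr (cond p (cG x0 y om be k i1 j) (cG x0 y om be k i1 j ω))
          (far1 y be (r / 2 ^ (j * k)) (C1 ω a) ω)) := rfl
      have h10 : ∑ j ∈ range n, ρ' j = ∑ j ∈ range n, ∑ ω, p ω * ∑ a, κ' ω a * (W' j ω a *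
        Pr (cond p (cG x0 y om be k i1 j) (cG x0 y om be k i1 j ω))
          (far2 y om be (r / 2 ^ (j * k)) (C2 ω a) (sg ω) (dd ω) ω)) := rfl
      rw [h9, h10]
      linarith
    have h2 := mul_le_mul_of_nonneg_right h1 hl
    linarith
  · -- the size of the slopes
    intro j _ g
    simp only [hchi]
    by_cases h : ∃ ω ∈ T j, 0 < p ω ∧ G j ω = g
    · rw [dif_pos h]
      have hs := hs j g h
      exact (hWa j _ _ hs.1.1 hs.2.2.2.1).1
    · rw [dif_neg h, abs_zero]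
      exact hK
  · -- the difference of the slopes
    intro j _ g
    simp only [hchi, hchi']
    by_cases h : ∃ ω ∈ T j, 0 < p ω ∧ G j ω = g
    · rw [dif_pos h, dif_pos h]
      have hs := hs j g h
      have h1 := (hWa j _ _ hs.1.1 hs.2.2.2.1).2
      have h2 := hWa' j _ _ hs.1.1 hs.2.2.2.2.2.1
      have h3 := abs_sub_le (C2 (wf j g h) (bf j g h))
        (La (wf j g h)) (C1 (wf j g h) (af j g h))
      rw [abs_sub_comm (La (wf j g h))] at h3
      linarith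
    · rw [dif_neg h, dif_neg h, sub_self, abs_zero]
      exact hd
  · -- the coefficient of the velocity
    intro j _ g
    simp only [hchi', hsgc, hddc]
    by_cases h : ∃ ω ∈ T j, 0 < p ω ∧ G j ω = g
    · rw [dif_pos h, dif_pos h, dif_pos h]
      have hs := hs j g h
      have h2 := hWa' j _ _ hs.1.1 hs.2.2.2.2.2.1
      have h3 := hGd _ hs.1.1
      set ω₁ := wf j g h
      set c2 := C2 ω₁ (bf j g h)
      have h4 : sg ω₁ + La ω₁ * dd ω₁ = (sg ω₁ + c2 * dd ω₁) - (c2 - La ω₁) * dd ω₁ := by ring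
      rw [h4] at h3
      have h5 := abs_sub (sg ω₁ + c2 * dd ω₁) ((c2 - La ω₁) * dd ω₁)
      rw [abs_mul] at h5
      have h6 := mul_le_mul_of_nonneg_right h2 (abs_nonneg (dd ω₁))
      linarith
    · rw [dif_neg h, dif_neg h, dif_neg h, mul_zero, add_zero]
      exact le_abs_self _
  · -- the first form
    intro j _
    refine pick hp (G j) (T j)
      (fun g => {ω | r / 2 ^ (j * k) < |be ω - (chi j g * y ω + cc j g)|}) hε.le ?_
    · intro g h
      have hs := hs j g h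
      have h1 := hs.2.2.2.2.1
      simp only [hF1] at h1
      have key : ∀ (g' : (χ × ℤ × ℤ) × ℤ) (X : Set Ω), g' = g →
          Pr (cond p (G j) g') X ≤ ε → Pr (cond p (G j) g) X ≤ ε := by
        rintro _ X rfl h3
        exact h3
      refine le_trans (le_of_eq ?_) (key _ _ hs.2.2.1 h1)
      congr 1
      ext v
      simp only [hchi, hcc, far1, Set.mem_ofPred_eq]
      rw [dif_pos h, dif_pos h]
      have h2 : ∀ c a b a' b' : ℝ, a - (c * b + (a' - c * b')) = (a - a') - c * (b - b') := by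
        intro c a b a' b'
        ring
      rw [h2]
  · -- the second form
    intro j _
    refine pick hp (G j) (T j)
      (fun g => {ω | r / 2 ^ (j * k) < |(be ω - sgc j g * om ω) -
        (chi' j g * (y ω + ddc j g * om ω) + cc' j g)|}) hε.le ?_
    · intro g h
      have hs := hs j g h
      have h1 := hs.2.2.2.2.2.2
      simp only [hF2] at h1
      have key : ∀ (g' : (χ × ℤ × ℤ) × ℤ) (X : Set Ω), g' = g →
          Pr (cond p (G j) g') X ≤ ε → Pr (cond p (G j) g) X ≤ ε := by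
        rintro _ X rfl h3
        exact h3
      refine le_trans (le_of_eq ?_) (key _ _ hs.2.2.1 h1)
      congr 1
      ext v
      simp only [hchi', hsgc, hddc, hcc', far2, Set.mem_ofPred_eq]
      rw [dif_pos h, dif_pos h, dif_pos h, dif_pos h]
      have h2 : ∀ c a s o b d a' o' b' : ℝ, (a - s * o) - (c * (b + d * o) +
          ((a' - s * o') - c * (b' + d * o'))) =
          ((a - a') - s * (o - o')) - c * ((b - b') + d * (o - o')) := by
        intro c a s o b d a' o' b'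
        ring
      rw [h2]

end

end Pool.OCT
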