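import Pool.Agent.H97.OC.Stmts
import Pool.Agent.H55.OC.STS

/-!
# OC, row SPRB: the pieces

`p = Qp 0` is the law of the pairs on one line. The variables of a pair: the velocity divided by
the time distance `omT`, the position `y1` at the first time, and the normal velocity `beT` in the
frame of the first time, multiplied by `2 ^ m`. The cell `LB m s` is the triple `x0` together with
the digits of precision `2 ^ (-s)` of these three numbers.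
-/

set_option autoImplicit false

namespace Pool.OC

open Finset Real
open Pool.Agent.H49.Ent Pool.Agent.H32.Dense Pool.STK Pool.KAF Pool.OCT

namespace Dat

variable (d : Dat)

/-- The context of a pair. -/
noncomputable def x0 (m : d.Lam → ℤ) (w : d.Om × d.Om) : d.Tau × d.Tau × ℤ :=
  (d.T w.1, d.T w.2, m (d.L w.1))

/-- The position at the first time. -/
noncomputable def y1 (w : d.Om × d.Om) : ℝ :=
  d.yR (d.L w.1) + d.th (d.T w.1) * d.omR (d.L w.1)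

/-- The velocity in units of the cell. -/
noncomputable def omT (w : d.Om × d.Om) : ℝ :=
  (2 : ℝ) ^ (-sc (d.ta w)) * d.omR (d.L w.1)

/-- The normal velocity in the frame of the first time. -/
noncomputable def beT (m : d.Lam → ℤ) (w : d.Om × d.Om) : ℝ :=
  (2 : ℝ) ^ (m (d.L w.1)) * (d.beR (d.L w.1) - d.S (d.T w.1) * d.omR (d.L w.1))

end Dat

section

variable {Ω : Type} [Fintype Ω] {χ : Type}

/-- Free part of the cells. -/
noncomputable def cF (x : Ω → χ) (y om : Ω → ℝ) (s : ℕ) (ω : Ω) : χ × ℤ × ℤ :=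
  (x ω, fl (2 ^ s) y ω, fl (2 ^ s) om ω)

/-- The cells. -/
noncomputable def cB (x : Ω → χ) (y om be : Ω → ℝ) (s : ℕ) (ω : Ω) : (χ × ℤ × ℤ) × ℤ :=
  (cF x y om s ω, fl (2 ^ s) be ω)

end

/-- Piece E: the entropy of the free part. -/
def SPRB_E : Prop :=
  ∀ A : ℕ, ∃ C : ℝ, 0 ≤ C ∧ ∀ (d : Dat) (m : d.Lam → ℤ) (n s₀ s₁ : ℕ) (ε ca : ℝ), d.OK A →
    (∀ l, -(4 * n : ℤ) ≤ m l) → (∀ l, m l ≤ 2 * n) → 1 ≤ n → s₀ ≤ 9 * n → d.X ≤ s₁ + 9 * n →
    s₁ ≤ d.X → 64 * n ≤ d.X → 0 ≤ ε → TA d n ε → d.H1 ε → d.H3 ε → d.H4 ca →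
    (1 + ca) * d.X * Real.log 2 - C * (n + ε * d.X + 1) ≤
      CH (d.Qp 0) (cF (d.x0 m) d.y1 d.omT s₁) (cF (d.x0 m) d.y1 d.omT s₀)

/-- Piece T: the telescope, all starts. -/
def SPRB_T : Prop :=
  ∀ (Ω χ : Type) [Fintype Ω] (p : Ω → ℝ) (x : Ω → χ) (y om be : Ω → ℝ) (K N s₀ : ℕ)
    (chi c : ℕ → (χ × ℤ × ℤ) × ℤ → ℝ) (b : ℕ → ℝ) (r Kc L M : ℝ), IsLaw p → 1 ≤ K → 0 ≤ r →
    0 ≤ Kc → (∀ s g, |chi s g| ≤ Kc) →
    (∀ s, s₀ ≤ s → s < s₀ + N * K → Pr p {ω | r / 2 ^ s <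
      |be ω - (chi s (cB x y om be s ω) * y ω + c s (cB x y om be s ω))|} ≤ b s) →
    (∀ ρ < K, L ≤ CH p (cF x y om (s₀ + ρ + N * K)) (cF x y om (s₀ + ρ))) →
    (∀ ρ < K, CH p (fl (2 ^ (s₀ + ρ)) be) (cF x y om (s₀ + ρ)) ≤ M) →
    (L - M) / Real.log 2 - N * (K + 4 + Real.log (2 ^ (K + 1) * (r + Kc / 2 ^ K) + 2) /
        Real.log 2) - ∑ t ∈ range (N * K), b (s₀ + t) ≤
      ∑ t ∈ range (N * K), Pr (dbl p (cB x y om be (s₀ + t)))
        {w | 1 / 2 ^ (s₀ + t + K) ≤ |om w.1 - om w.2|}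

end Pool.OC
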