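import Pool.Agent.H70.OC.Tel

/-!
# OC, stage B: two atomic forms with different velocity coefficients

The cells of stage B are given by a label `x0` (which contains the two base times and the integer
`m`), the digits of the position `y` (at the first base time), of the velocity `om` (coarser by
`i1` digits), and of `be` (which is `2 ^ m` times the normal velocity at the first base time).
Most cells carry two almost determined forms `be - chi y` and `(be - sg om) - chi' (y + dd om)`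
with `|sg + chi' dd|` not small. Then `be` and `om` carry almost no digits beyond those of `y`.
-/

set_option autoImplicit false

namespace Pool.OCT

open Finset Real
open Pool.Agent.H49.Ent Pool.Agent.H32.Dense Pool.STK Pool.KAF

section

variable {Ω : Type} [Fintype Ω] {χ : Type}

/-- The free part of the cells of stage B. -/
noncomputable def cA (x0 : Ω → χ) (y om : Ω → ℝ) (k i1 j : ℕ) (ω : Ω) : χ × ℤ × ℤ :=
  (x0 ω, fl (2 ^ (j * k)) y ω, fl (2 ^ (j * k) / 2 ^ i1) om ω)

/-- The cells of stage B. -/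
noncomputable def cG (x0 : Ω → χ) (y om be : Ω → ℝ) (k i1 j : ℕ) (ω : Ω) : (χ × ℤ × ℤ) × ℤ :=
  (cA x0 y om k i1 j ω, fl (2 ^ (j * k)) be ω)

lemma pow_step (k j : ℕ) : (2 : ℝ) ^ ((j + 1) * k) = 2 ^ k * 2 ^ (j * k) := by
  rw [← pow_add]
  congr 1
  ring

omit [Fintype Ω] in
/-- The representative of the position in a cell. -/
lemma fl_near {σ : ℝ} (hσ : 0 < σ) (y : Ω → ℝ) (ω : Ω) :
    |y ω - (fl σ y ω : ℝ) / σ| ≤ 1 / σ := by
  unfold fl
  have h1 := Int.floor_le (σ * y ω)
  have h2 := Int.lt_floor_add_one (σ * y ω)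
  rw [abs_le]
  constructor
  · have : (⌊σ * y ω⌋ : ℝ) / σ ≤ y ω := by
      rw [div_le_iff₀ hσ]
      linarith
    have h3 : 0 ≤ 1 / σ := by positivity
    linarith
  · have : y ω ≤ ((⌊σ * y ω⌋ : ℝ) + 1) / σ := by
      rw [le_div_iff₀ hσ]
      linarith
    rw [add_div] at this
    linarith

omit [Fintype Ω] in
/-- Points of a cell are close. -/
lemma fl_cell {σ : ℝ} (hσ : 0 < σ) (y : Ω → ℝ) {ω ω' : Ω} (h : fl σ y ω = fl σ y ω') :
    |y ω - y ω'| ≤ 1 / σ := by
  unfold fl at h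
  have h1 := Int.floor_le (σ * y ω)
  have h2 := Int.lt_floor_add_one (σ * y ω)
  have h3 := Int.floor_le (σ * y ω')
  have h4 := Int.lt_floor_add_one (σ * y ω')
  rw [h] at h1 h2
  have h5 : |σ * (y ω - y ω')| ≤ 1 := by
    rw [abs_le]
    constructor <;> nlinarith
  rw [abs_mul, abs_of_pos hσ] at h5
  rw [le_div_iff₀ hσ]
  linarith

/-- **The telescope of stage B.** -/
theorem stb_tel {p : Ω → ℝ} (hp : IsLaw p) (x0 : Ω → χ) (y om be : Ω → ℝ) (k i1 n : ℕ)
    (chi chi' c c' sg dd : ℕ → (χ × ℤ × ℤ) × ℤ → ℝ) (b b' : ℕ → ℝ) {r K d w0 : ℝ}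
    (hr : 0 ≤ r) (hK : 0 ≤ K) (hd : 0 ≤ d) (hw : 0 < w0)
    (hchi : ∀ j < n, ∀ g, |chi j g| ≤ K) (hdiff : ∀ j < n, ∀ g, |chi' j g - chi j g| ≤ d)
    (hsg : ∀ j < n, ∀ g, w0 / 2 ^ i1 ≤ |sg j g + chi' j g * dd j g|)
    (h1 : ∀ j < n, Pr p {ω | r / 2 ^ (j * k) <
      |be ω - (chi j (cG x0 y om be k i1 j ω) * y ω + c j (cG x0 y om be k i1 j ω))|} ≤ b j)
    (h2 : ∀ j < n, Pr p {ω | r / 2 ^ (j * k) <
      |(be ω - sg j (cG x0 y om be k i1 j ω) * om ω) -
        (chi' j (cG x0 y om be k i1 j ω) * (y ω + dd j (cG x0 y om be k i1 j ω) * om ω) +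
          c' j (cG x0 y om be k i1 j ω))|} ≤ b' j) :
    CH p (cA x0 y om k i1 n) (cA x0 y om k i1 0) ≤
      CH p (fl (2 ^ (0 * k)) be) (cA x0 y om k i1 0) +
      n * (k * Real.log 2 + 2 * Real.log 2 + Real.log (2 ^ (k + 1) * (r + K / 2 ^ k) + 2) +
        Real.log (2 ^ (k + 1) * ((2 * r + d) / w0) + 2)) +
      (∑ j ∈ range n, (2 * b j + b' j)) * (k * Real.log 2) := by
  set κ : ℝ := 2 ^ (k + 1) * (r + K / 2 ^ k) + 2 with hκ
  set κ' : ℝ := 2 ^ (k + 1) * ((2 * r + d) / w0) + 2 with hκ'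
  have hpk : ∀ j : ℕ, (0 : ℝ) < 2 ^ (j * k) := fun j => by positivity
  have hl : 0 ≤ (k : ℝ) * Real.log 2 := by positivity
  -- the dependent part
  have hB : ∀ j < n, CH p (fl (2 ^ ((j + 1) * k)) be)
      (fun ω => (cA x0 y om k i1 (j + 1) ω, (cA x0 y om k i1 j ω, fl (2 ^ (j * k)) be ω))) ≤
      Real.log 2 + Real.log κ + b j * (k * Real.log 2) := by
    intro j hj
    rw [pow_step k j]
    have h := atom hp k (hpk j) be (cG x0 y om be k i1 j) (cA x0 y om k i1 (j + 1))
      (fun ω ω' _ _ hw => (Prod.ext_iff.1 hw).2)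
      (h := fun g ω => chi j g * y ω + c j g) (ρ := r / 2 ^ (j * k))
      (v := K * (1 / 2 ^ ((j + 1) * k))) (κ := κ) (by positivity) (by positivity)
      (by
        rw [hκ, pow_step k j]
        have h3 := hpk j
        have h4 : (0 : ℝ) < 2 ^ k := by positivity
        apply le_of_eq
        field_simp
        ring)
      (by
        intro ω ω' _ _ hG hA
        have h3 : fl (2 ^ ((j + 1) * k)) y ω = fl (2 ^ ((j + 1) * k)) y ω' := by
          have := congrArg (fun z : χ × ℤ × ℤ => z.2.1) hA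
          exact this
        have h4 := fl_cell (hpk (j + 1)) y h3
        have h5 : chi j (cG x0 y om be k i1 j ω) * y ω + c j (cG x0 y om be k i1 j ω) -
            (chi j (cG x0 y om be k i1 j ω) * y ω' + c j (cG x0 y om be k i1 j ω)) =
            chi j (cG x0 y om be k i1 j ω) * (y ω - y ω') := by ring
        rw [h5, abs_mul]
        exact mul_le_mul (hchi j hj _) h4 (abs_nonneg _) hK)
    have h3 := mul_le_mul_of_nonneg_right (h1 j hj) hl
    have h4 : CH p (fl (2 ^ k * 2 ^ (j * k)) be)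
        (fun ω => (cA x0 y om k i1 (j + 1) ω, (cA x0 y om k i1 j ω, fl (2 ^ (j * k)) be ω))) =
        CH p (fl (2 ^ k * 2 ^ (j * k)) be)
        (fun ω => (cA x0 y om k i1 (j + 1) ω, cG x0 y om be k i1 j ω)) := rfl
    rw [h4]
    linarith
  -- the free part
  have hA : ∀ j < n, CH p (cA x0 y om k i1 (j + 1))
      (fun ω => (cA x0 y om k i1 j ω, fl (2 ^ (j * k)) be ω)) ≤
      k * Real.log 2 + (Real.log 2 + Real.log κ' + (b j + b' j) * (k * Real.log 2)) := by
    intro j hj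
    have e0 : CH p (cA x0 y om k i1 (j + 1)) (cG x0 y om be k i1 j) ≤
        CH p (fl (2 ^ ((j + 1) * k)) y) (cG x0 y om be k i1 j) +
        CH p (fl (2 ^ ((j + 1) * k) / 2 ^ i1) om)
          (fun ω => (fl (2 ^ ((j + 1) * k)) y ω, cG x0 y om be k i1 j ω)) := by
      have e1 := CH_chain hp.nonneg (fl (2 ^ ((j + 1) * k) / 2 ^ i1) om)
        (fl (2 ^ ((j + 1) * k)) y) (cG x0 y om be k i1 j)
      rw [← e1]
      refine CH_mono_left hp.nonneg ?_
      intro ω ω' _ _ hw
      simp only [Prod.mk.injEq] at hw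
      obtain ⟨⟨h3, h4⟩, h5⟩ := hw
      have h6 : x0 ω = x0 ω' := by
        have := congrArg (fun z : (χ × ℤ × ℤ) × ℤ => z.1.1) h5
        exact this
      show (x0 ω, fl (2 ^ ((j + 1) * k)) y ω, fl (2 ^ ((j + 1) * k) / 2 ^ i1) om ω) =
        (x0 ω', fl (2 ^ ((j + 1) * k)) y ω', fl (2 ^ ((j + 1) * k) / 2 ^ i1) om ω')
      rw [h3, h4, h6]
    have e2 : CH p (fl (2 ^ ((j + 1) * k)) y) (cG x0 y om be k i1 j) ≤ k * Real.log 2 := by
      rw [pow_step k j]
      refine ch_fl_le hp k (2 ^ (j * k)) y _ ?_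
      intro ω ω' _ _ hw
      have := congrArg (fun z : (χ × ℤ × ℤ) × ℤ => z.1.2.1) hw
      exact this
    have e3 : CH p (fl (2 ^ ((j + 1) * k) / 2 ^ i1) om)
        (fun ω => (fl (2 ^ ((j + 1) * k)) y ω, cG x0 y om be k i1 j ω)) ≤
        Real.log 2 + Real.log κ' + (b j + b' j) * (k * Real.log 2) := by
      have hs : (2 : ℝ) ^ ((j + 1) * k) / 2 ^ i1 = 2 ^ k * (2 ^ (j * k) / 2 ^ i1) := by
        rw [pow_step k j, mul_div_assoc]
      rw [hs]
      -- the centre of `om`
      set ce : (χ × ℤ × ℤ) × ℤ → ℝ := fun g =>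
        (-(chi' j g - chi j g) * ((g.1.2.1 : ℝ) / 2 ^ (j * k)) - (c' j g - c j g)) /
          (sg j g + chi' j g * dd j g) with hce
      have h := atom hp k (τ := 2 ^ (j * k) / 2 ^ i1) (by positivity) om (cG x0 y om be k i1 j)
        (fl (2 ^ ((j + 1) * k)) y)
        (fun ω ω' _ _ hw => by
          have := congrArg (fun z : (χ × ℤ × ℤ) × ℤ => z.1.2.2) hw
          exact this)
        (h := fun g _ => ce g) (ρ := (2 * r + d) / w0 * 2 ^ i1 / 2 ^ (j * k))
        (v := 0) (κ := κ') (by positivity) le_rfl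
        (by
          rw [hκ']
          apply le_of_eq
          field_simp
          ring)
        (by
          intro ω ω' _ _ _ _
          rw [sub_self, abs_zero])
      refine h.trans ?_
      have h3 : Pr p {ω | (2 * r + d) / w0 * 2 ^ i1 / 2 ^ (j * k) <
          |om ω - ce (cG x0 y om be k i1 j ω)|} ≤ b j + b' j := by
        refine le_trans ?_ (add_le_add (h1 j hj) (h2 j hj))
        refine le_trans (Pr_mono hp.nonneg ?_) (Pr_union_le hp.nonneg _ _)
        intro ω _ hω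
        by_contra hcon
        rw [Set.mem_union, not_or] at hcon
        obtain ⟨g1, g2⟩ := hcon
        have g1' : |be ω - (chi j (cG x0 y om be k i1 j ω) * y ω +
            c j (cG x0 y om be k i1 j ω))| ≤ r / 2 ^ (j * k) := not_lt.1 g1
        have g2' : |(be ω - sg j (cG x0 y om be k i1 j ω) * om ω) -
            (chi' j (cG x0 y om be k i1 j ω) * (y ω + dd j (cG x0 y om be k i1 j ω) * om ω) +
              c' j (cG x0 y om be k i1 j ω))| ≤ r / 2 ^ (j * k) := not_lt.1 g2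
        have g3 := hsg j hj (cG x0 y om be k i1 j ω)
        have g4 := hdiff j hj (cG x0 y om be k i1 j ω)
        have g5 := fl_near (hpk j) y ω
        have g6 : ((cG x0 y om be k i1 j ω).1.2.1 : ℝ) = (fl (2 ^ (j * k)) y ω : ℝ) := rfl
        have hω' : (2 * r + d) / w0 * 2 ^ i1 / 2 ^ (j * k) <
          |om ω - ce (cG x0 y om be k i1 j ω)| := hω
        rw [hce] at hω'
        simp only [g6] at hω'
        clear_value κ κ'
        generalize hg : cG x0 y om be k i1 j ω = g at g1' g2' g3 g4 hω'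
        generalize hX : sg j g + chi' j g * dd j g = X at g3 hω'
        have hX0 : 0 < |X| := lt_of_lt_of_le (by positivity) g3
        have hX1 : X ≠ 0 := abs_pos.1 hX0
        have hid : (om ω - (-(chi' j g - chi j g) * ((fl (2 ^ (j * k)) y ω : ℝ) / 2 ^ (j * k)) -
            (c' j g - c j g)) / X) * X =
            (be ω - (chi j g * y ω + c j g)) -
            ((be ω - sg j g * om ω) - (chi' j g * (y ω + dd j g * om ω) + c' j g)) -
            (chi' j g - chi j g) * (y ω - (fl (2 ^ (j * k)) y ω : ℝ) / 2 ^ (j * k)) := by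
          rw [sub_mul, div_mul_cancel₀ _ hX1, ← hX]
          ring
        have hab : |om ω - (-(chi' j g - chi j g) * ((fl (2 ^ (j * k)) y ω : ℝ) / 2 ^ (j * k)) -
            (c' j g - c j g)) / X| * |X| ≤ (2 * r + d) / 2 ^ (j * k) := by
          rw [← abs_mul, hid]
          have t1 := abs_sub ((be ω - (chi j g * y ω + c j g)) -
            ((be ω - sg j g * om ω) - (chi' j g * (y ω + dd j g * om ω) + c' j g)))
            ((chi' j g - chi j g) * (y ω - (fl (2 ^ (j * k)) y ω : ℝ) / 2 ^ (j * k)))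
          have t2 := abs_sub (be ω - (chi j g * y ω + c j g))
            ((be ω - sg j g * om ω) - (chi' j g * (y ω + dd j g * om ω) + c' j g))
          have t3 : |(chi' j g - chi j g) *
              (y ω - (fl (2 ^ (j * k)) y ω : ℝ) / 2 ^ (j * k))| ≤ d * (1 / 2 ^ (j * k)) := by
            rw [abs_mul]
            exact mul_le_mul g4 g5 (abs_nonneg _) hd
          have t4 : (2 * r + d) / 2 ^ (j * k) = r / 2 ^ (j * k) + r / 2 ^ (j * k) +
              d * (1 / 2 ^ (j * k)) := by ring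
          rw [t4]
          linarith
        have hlt : (2 * r + d) / w0 * 2 ^ i1 / 2 ^ (j * k) * |X| <
            (2 * r + d) / 2 ^ (j * k) := lt_of_lt_of_le (mul_lt_mul_of_pos_right hω' hX0) hab
        have hge : (2 * r + d) / 2 ^ (j * k) ≤
            (2 * r + d) / w0 * 2 ^ i1 / 2 ^ (j * k) * |X| := by
          have h4 : (2 * r + d) / 2 ^ (j * k) =
              (2 * r + d) / w0 * 2 ^ i1 / 2 ^ (j * k) * (w0 / 2 ^ i1) := by
            field_simp
          rw [h4]
          exact mul_le_mul_of_nonneg_left g3 (by positivity)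
        linarith
      have h4 := mul_le_mul_of_nonneg_right h3 hl
      linarith
    have e4 : CH p (cA x0 y om k i1 (j + 1))
      (fun ω => (cA x0 y om k i1 j ω, fl (2 ^ (j * k)) be ω)) =
      CH p (cA x0 y om k i1 (j + 1)) (cG x0 y om be k i1 j) := rfl
    rw [e4]
    linarith
  have ht := tel hp.nonneg (fun j => cA x0 y om k i1 j) (fun j => fl (2 ^ (j * k)) be) n
    (fun j => Real.log 2 + Real.log κ + b j * (k * Real.log 2)) hB
  have hs := Finset.sum_le_sum fun j (hj : j ∈ range n) => hA j (Finset.mem_range.1 hj)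
  have hsum1 : ∑ j ∈ range n, (Real.log 2 + Real.log κ + b j * (k * Real.log 2)) =
      n * (Real.log 2 + Real.log κ) + (∑ j ∈ range n, b j) * (k * Real.log 2) := by
    rw [Finset.sum_add_distrib, Finset.sum_const, card_range, nsmul_eq_mul, Finset.sum_mul]
  have hsum2 : ∑ j ∈ range n,
      (k * Real.log 2 + (Real.log 2 + Real.log κ' + (b j + b' j) * (k * Real.log 2))) =
      n * (k * Real.log 2 + (Real.log 2 + Real.log κ')) +
        (∑ j ∈ range n, (b j + b' j)) * (k * Real.log 2) := by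
    have h3 : ∀ j ∈ range n,
        (k * Real.log 2 + (Real.log 2 + Real.log κ' + (b j + b' j) * (k * Real.log 2))) =
        (k * Real.log 2 + (Real.log 2 + Real.log κ')) + (b j + b' j) * (k * Real.log 2) :=
      fun j _ => by ring
    rw [Finset.sum_congr rfl h3, Finset.sum_add_distrib, Finset.sum_const, card_range,
      nsmul_eq_mul, ← Finset.sum_mul]
  have hsum3 : ∑ j ∈ range n, (2 * b j + b' j) = ∑ j ∈ range n, b j +
      ∑ j ∈ range n, (b j + b' j) := by
    rw [← Finset.sum_add_distrib]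
    exact Finset.sum_congr rfl fun j _ => by ring
  rw [hsum1] at ht
  rw [hsum2] at hs
  rw [hsum3, add_mul]
  linarith

omit [Fintype Ω] in
/-- Integer parts of close numbers. -/
lemma fl_diff {σ L : ℝ} (hσ : 0 < σ) (y : Ω → ℝ) {ω ω' : Ω} (h : |y ω - y ω'| ≤ L / σ) :
    |((fl σ y ω - fl σ y ω' : ℤ) : ℝ)| ≤ L + 1 := by
  unfold fl
  have h1 := Int.floor_le (σ * y ω)
  have h2 := Int.lt_floor_add_one (σ * y ω)
  have h3 := Int.floor_le (σ * y ω')
  have h4 := Int.lt_floor_add_one (σ * y ω')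
  have h5 : |σ * (y ω - y ω')| ≤ L := by
    rw [abs_mul, abs_of_pos hσ]
    rw [le_div_iff₀ hσ] at h
    linarith
  have h6 := abs_le.1 h5
  have h7 : σ * (y ω - y ω') = σ * y ω - σ * y ω' := by ring
  rw [h7] at h6
  push_cast
  rw [abs_le]
  constructor <;> linarith

/-- Few values. -/
lemma ch_small {p : Ω → ℝ} (hp : IsLaw p) {T : Type} (σ L : ℝ) (hσ : 0 < σ) (y : Ω → ℝ)
    (G : Ω → T) (h : ∀ ω ω', 0 < p ω → 0 < p ω' → G ω = G ω' → |y ω - y ω'| ≤ L / σ) :
    CH p (fl σ y) G ≤ Real.log (2 * (L + 1) + 1) := by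
  have h1 := CH_le_int hp.nonneg hp.sum_one (fl σ y) G (fun _ => L + 1)
    (fun ω ω' a b c => fl_diff hσ y (h ω ω' a b c))
  rwa [Ex_const hp.sum_one] at h1

/-- **Stage B.** The velocity digits and the position digits given them have together little
more entropy than the number of digits. -/
theorem stb_main {p : Ω → ℝ} (hp : IsLaw p) (x0 : Ω → χ) (y0 y om be t1 : Ω → ℝ) (k i1 n : ℕ)
    (ht1 : Det p x0 t1) (ht1' : ∀ ω, |t1 ω| ≤ 1) (hy : ∀ ω, y ω = y0 ω + t1 ω * om ω)
    (chi chi' c c' sg dd : ℕ → (χ × ℤ × ℤ) × ℤ → ℝ) (b b' : ℕ → ℝ) {r K d w0 Mb ha hya : ℝ}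
    (hyb : ∀ ω, |y ω| ≤ 2) (homb : ∀ ω, |om ω| ≤ 1) (hbb : ∀ ω, |be ω| ≤ Mb)
    (hr : 0 ≤ r) (hK : 0 ≤ K) (hd : 0 ≤ d) (hw : 0 < w0)
    (hchi : ∀ j < n, ∀ g, |chi j g| ≤ K) (hdiff : ∀ j < n, ∀ g, |chi' j g - chi j g| ≤ d)
    (hsg : ∀ j < n, ∀ g, w0 / 2 ^ i1 ≤ |sg j g + chi' j g * dd j g|)
    (h1 : ∀ j < n, Pr p {ω | r / 2 ^ (j * k) <
      |be ω - (chi j (cG x0 y om be k i1 j ω) * y ω + c j (cG x0 y om be k i1 j ω))|} ≤ b j)
    (h2 : ∀ j < n, Pr p {ω | r / 2 ^ (j * k) <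
      |(be ω - sg j (cG x0 y om be k i1 j ω) * om ω) -
        (chi' j (cG x0 y om be k i1 j ω) * (y ω + dd j (cG x0 y om be k i1 j ω) * om ω) +
          c' j (cG x0 y om be k i1 j ω))|} ≤ b' j)
    (hHa : ha ≤ CH p (fl (2 ^ (n * k)) om) x0)
    (hHy : hya ≤ CH p (fl (2 ^ (n * k)) y0) (fun ω => (fl (2 ^ (n * k)) om ω, x0 ω))) :
    ha + hya ≤ (i1 + 10) * Real.log 2 + Real.log (4 * Mb + 3) +
      n * (k * Real.log 2 + 2 * Real.log 2 + Real.log (2 ^ (k + 1) * (r + K / 2 ^ k) + 2) +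
        Real.log (2 ^ (k + 1) * ((2 * r + d) / w0) + 2)) +
      (∑ j ∈ range n, (2 * b j + b' j)) * (k * Real.log 2) := by
  have ht := stb_tel hp x0 y om be k i1 n chi chi' c c' sg dd b b' hr hK hd hw hchi hdiff hsg h1 h2
  have hN : (0 : ℝ) < 2 ^ (n * k) := by positivity
  -- the digits of the pair
  have e1 := CH_chain hp.nonneg (fl (2 ^ (n * k)) y0) (fl (2 ^ (n * k)) om) x0
  have e2 := CH_le_add hp.nonneg (fun ω => (fl (2 ^ (n * k)) y0 ω, fl (2 ^ (n * k)) om ω))
    (cA x0 y om k i1 n) x0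
  have e3 := CH_chain hp.nonneg (fl (2 ^ (n * k)) y0) (fl (2 ^ (n * k)) om)
    (fun ω => (cA x0 y om k i1 n ω, x0 ω))
  have e4 : CH p (fl (2 ^ (n * k)) om) (fun ω => (cA x0 y om k i1 n ω, x0 ω)) ≤
      i1 * Real.log 2 := by
    have h := ch_fl_le hp i1 (2 ^ (n * k) / 2 ^ i1) om (fun ω => (cA x0 y om k i1 n ω, x0 ω))
      (fun ω ω' _ _ hw => by
        have := congrArg (fun z : (χ × ℤ × ℤ) × χ => z.1.2.2) hw
        exact this)
    rwa [mul_div_cancel₀ _ (by positivity : (2 : ℝ) ^ i1 ≠ 0)] at h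
  have e5 : CH p (fl (2 ^ (n * k)) y0)
      (fun ω => (fl (2 ^ (n * k)) om ω, (cA x0 y om k i1 n ω, x0 ω))) ≤ 3 * Real.log 2 := by
    have h := ch_small hp (2 ^ (n * k)) 2 hN y0
      (fun ω => (fl (2 ^ (n * k)) om ω, (cA x0 y om k i1 n ω, x0 ω))) (by
        intro ω ω' hω hω' hw
        simp only [Prod.mk.injEq] at hw
        obtain ⟨g1, g2, g3⟩ := hw
        have g4 : fl (2 ^ (n * k)) y ω = fl (2 ^ (n * k)) y ω' := by
          have := congrArg (fun z : χ × ℤ × ℤ => z.2.1) g2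
          exact this
        have g5 := fl_cell hN y g4
        have g6 := fl_cell hN om g1
        have g7 := ht1 ω ω' hω hω' g3
        have g8 : y0 ω - y0 ω' = (y ω - y ω') - t1 ω * (om ω - om ω') := by
          rw [hy ω, hy ω', ← g7]
          ring
        rw [g8]
        refine (abs_sub _ _).trans ?_
        rw [abs_mul]
        have g9 : |t1 ω| * |om ω - om ω'| ≤ 1 * (1 / 2 ^ (n * k)) :=
          mul_le_mul (ht1' ω) g6 (abs_nonneg _) zero_le_one
        have g10 : (2 : ℝ) / 2 ^ (n * k) = 1 / 2 ^ (n * k) + 1 * (1 / 2 ^ (n * k)) := by ring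
        rw [g10]
        linarith)
    refine h.trans ?_
    have h3 : Real.log (2 * (2 + 1) + 1) ≤ Real.log (2 ^ 3) :=
      Real.log_le_log (by norm_num) (by norm_num)
    rw [Real.log_pow] at h3
    exact_mod_cast h3
  have e6 := CH_le_add hp.nonneg (cA x0 y om k i1 n) (cA x0 y om k i1 0) x0
  have e7 : CH p (cA x0 y om k i1 n) (fun ω => (cA x0 y om k i1 0 ω, x0 ω)) ≤
      CH p (cA x0 y om k i1 n) (cA x0 y om k i1 0) :=
    CH_mono_cond hp.nonneg fun ω ω' _ _ hw => (Prod.ext_iff.1 hw).1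
  have e8 : CH p (cA x0 y om k i1 0) x0 ≤ 7 * Real.log 2 := by
    have g0 : CH p (cA x0 y om k i1 0) x0 ≤
        CH p (fun ω => (fl (2 ^ (0 * k)) y ω, fl (2 ^ (0 * k) / 2 ^ i1) om ω)) x0 := by
      refine CH_mono_left hp.nonneg ?_
      intro ω ω' _ _ hw
      simp only [Prod.mk.injEq] at hw
      unfold cA
      rw [hw.1.1, hw.1.2, hw.2]
    have g1 := CH_subadd hp.nonneg (fl (2 ^ (0 * k)) y) (fl (2 ^ (0 * k) / 2 ^ i1) om) x0
    have g2 := ch_small hp (2 ^ (0 * k)) 4 (by positivity) y x0 (fun ω ω' _ _ _ => by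
      have h3 := abs_sub (y ω) (y ω')
      have h4 := hyb ω
      have h5 := hyb ω'
      rw [zero_mul, pow_zero, div_one]
      linarith)
    have g3 := ch_small hp (2 ^ (0 * k) / 2 ^ i1) 2 (by positivity) om x0 (fun ω ω' _ _ _ => by
      have h3 := abs_sub (om ω) (om ω')
      have h4 := homb ω
      have h5 := homb ω'
      rw [zero_mul, pow_zero, one_div, div_inv_eq_mul]
      have h6 : (1 : ℝ) ≤ 2 ^ i1 := one_le_pow₀ (by norm_num)
      linarith)
    have h3 : Real.log (2 * (4 + 1) + 1) ≤ Real.log (2 ^ 4) :=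
      Real.log_le_log (by norm_num) (by norm_num)
    have h4 : Real.log (2 * (2 + 1) + 1) ≤ Real.log (2 ^ 3) :=
      Real.log_le_log (by norm_num) (by norm_num)
    rw [Real.log_pow] at h3 h4
    have h5 := (g0.trans g1).trans (add_le_add (g2.trans h3) (g3.trans h4))
    refine h5.trans (le_of_eq ?_)
    push_cast
    ring
  have e9 : CH p (fl (2 ^ (0 * k)) be) (cA x0 y om k i1 0) ≤ Real.log (4 * Mb + 3) := by
    have g2 := ch_small hp (2 ^ (0 * k)) (2 * Mb) (by positivity) be (cA x0 y om k i1 0)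
      (fun ω ω' _ _ _ => by
        have h3 := abs_sub (be ω) (be ω')
        have h4 := hbb ω
        have h5 := hbb ω'
        rw [zero_mul, pow_zero, div_one]
        linarith)
    have h3 : 2 * (2 * Mb + 1) + 1 = 4 * Mb + 3 := by ring
    rwa [h3] at g2
  linarith

end

end Pool.OCT
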