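import Pool.Agent.H55.OC.Ker2

/-!
# OC, row SPRB: the choice of the forms of the cells
-/

set_option autoImplicit false

namespace Pool.OC

open Finset Real
open Pool.Agent.H49.Ent Pool.Agent.H32.Dense Pool.STK Pool.KAF Pool.OCT

/-- Samples with dense heavy rows. -/
def GdJ (d : Dat) (J : d.Om → Set ℕ) (h : ℕ) (u : ℝ) : Set d.Om :=
  {ω | ∀ j : ℕ, (j + 2) * h ≤ d.X →
    u * h ≤ (Set.ncard {r | r ∈ J ω ∧ j * h ≤ r ∧ r < (j + 1) * h} : ℝ)}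

/-- Bad partners. -/
def badB (d : Dat) (m : d.Lam → ℤ) (n k' a i : ℕ) : Set (d.Om × d.Om) :=
  {w | |d.ta w| < (2 : ℝ) ^ (-((i : ℤ) + k')) ∨ ((2 : ℝ) ^ (-(4 * n : ℤ)) ≤ |d.ta w| ∧
    (2 : ℝ) ^ ((a : ℤ) + 4 - m (d.L w.1)) * |d.ta w| < |d.sg w|)}

open Classical in
/-- The weight of the bad partners. -/
noncomputable def bw (d : Dat) (m : d.Lam → ℤ) (n k' a : ℕ) (ω : d.Om) : ℝ :=
  ∑ i ∈ Finset.Ico (n / 2) n, ∑ v, d.kap i ω v *
    (if (ω, v) ∈ badB d m n k' a i then 1 else 0)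

/-- The good pairs of stage B. -/
def GdB (d : Dat) (J : d.Om → Set ℕ) (m : d.Lam → ℤ) (n h k' a : ℕ) (u : ℝ) :
    Set (d.Om × d.Om) :=
  {w | w.1 ∈ GdJ d J h u ∧ bw d m n k' a w.1 ≤ u / 8 * n ∧
    (2 : ℝ) ^ (-((n / 4 : ℕ) : ℤ)) ≤ |d.ta w|}

theorem markov {Ω : Type} [Fintype Ω] {p f : Ω → ℝ} (hp : ∀ ω, 0 ≤ p ω)
    (hf : ∀ ω, 0 < p ω → 0 ≤ f ω) {c : ℝ} : c * Pr p {ω | c < f ω} ≤ Ex p f := by
  classical
  rw [Pool.KAF.Pr_eq, Finset.mul_sum]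
  unfold Ex
  refine Finset.sum_le_sum fun ω _ => ?_
  rcases (hp ω).eq_or_lt with h0 | h0
  · rw [← h0]
    simp
  by_cases h : c < f ω
  · rw [if_pos (show ω ∈ {ω | c < f ω} from h), mul_comm]
    exact mul_le_mul_of_nonneg_left h.le h0.le
  · rw [if_neg (show ω ∉ {ω | c < f ω} from h), mul_zero]
    exact mul_nonneg h0.le (hf ω h0)

theorem bw_mean {d : Dat} {A : ℕ} (hOK : d.OK A) (m : d.Lam → ℤ) {n k' a : ℕ} {ε : ℝ}
    (hε : 0 ≤ ε) (hnX : n ≤ d.X) (hN : NLC d m n a ε) (hT : TB d n k' ε) :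
    Ex d.P (bw d m n k' a) ≤ 2 * ε * n := by
  classical
  have e1 : Ex d.P (bw d m n k' a) =
      ∑ i ∈ Finset.Ico (n / 2) n, Pr (d.Qp i) (badB d m n k' a i) := by
    unfold Ex bw
    rw [Finset.sum_congr rfl fun ω _ => Finset.mul_sum _ _ _, Finset.sum_comm]
    refine Finset.sum_congr rfl fun i _ => ?_
    rw [Dat.pr_qp]
  rw [e1]
  have e2 : ∀ i ∈ Finset.Ico (n / 2) n, Pr (d.Qp i) (badB d m n k' a i) ≤
      Pr (d.Qp i) {w | |d.ta w| < (2 : ℝ) ^ (-((i : ℤ) + k'))} + ε := by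
    intro i hi
    rw [Finset.mem_Ico] at hi
    have hp := (Dat.qp_law hOK i).nonneg
    refine (le_trans (Pr_mono hp fun w _ hw => ?_) (Pr_union_le hp _ _)).trans
      (add_le_add_right (hN i (by omega)) _)
    exact hw
  refine (Finset.sum_le_sum e2).trans ?_
  rw [Finset.sum_add_distrib, Finset.sum_const, Nat.card_Ico, nsmul_eq_mul]
  have h1 := hT (n / 2) n (by omega) hnX
  have h2 : ((n - n / 2 : ℕ) : ℝ) ≤ n := by
    have : n - n / 2 ≤ n := Nat.sub_le _ _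
    exact_mod_cast this
  have h3 : (0 : ℝ) ≤ ((n / 2 : ℕ) : ℝ) := Nat.cast_nonneg _
  nlinarith

theorem GdB_meas {d : Dat} {A : ℕ} (hOK : d.OK A) {J : d.Om → Set ℕ} {m : d.Lam → ℤ}
    {n h k' a : ℕ} {u ε : ℝ} (hu : 0 < u) (hε : 0 ≤ ε) (hS : Siz d n h m) (hJ : J1 d J h u ε)
    (hN : NLC d m n a ε) (hTA : TA d n ε) (hTB : TB d n k' ε) :
    Pr (d.Qp 0) (GdB d J m n h k' a u)ᶜ ≤ 2 * ε + 16 * ε / u := by
  classical
  have hp := (Dat.qp_law hOK 0).nonneg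
  have hn1 : 1 ≤ n := by
    have := hS.h1
    have := hS.hn
    omega
  have hn0 : (0 : ℝ) < n := by exact_mod_cast hn1
  have hnX := hS.nX
  have hM := Dat.qp_fst hOK 0
  have e1 : Pr (d.Qp 0) {w | w.1 ∉ GdJ d J h u} ≤ ε := by
    have h1 : Pr (d.Qp 0) {w | w.1 ∉ GdJ d J h u} = Pr d.P {ω | ω ∉ GdJ d J h u} :=
      hM.law (fun ω => ω ∉ GdJ d J h u) True
    rw [h1]
    refine le_trans (Pr_mono hOK.law.nonneg fun ω _ hω => ?_) hJ
    have h2 : ¬ ∀ j : ℕ, (j + 2) * h ≤ d.X →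
      u * h ≤ (Set.ncard {r | r ∈ J ω ∧ j * h ≤ r ∧ r < (j + 1) * h} : ℝ) := hω
    rw [not_forall] at h2
    obtain ⟨j, hj⟩ := h2
    rw [Classical.not_imp] at hj
    exact ⟨j, hj.1, not_le.1 hj.2⟩
  have e2 : Pr (d.Qp 0) {w | ¬ bw d m n k' a w.1 ≤ u / 8 * n} ≤ 16 * ε / u := by
    have h1 : Pr (d.Qp 0) {w | ¬ bw d m n k' a w.1 ≤ u / 8 * n} =
        Pr d.P {ω | ¬ bw d m n k' a ω ≤ u / 8 * n} :=
      hM.law (fun ω => ¬ bw d m n k' a ω ≤ u / 8 * n) True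
    have h2 := markov (p := d.P) (f := bw d m n k' a) (c := u / 8 * n) hOK.law.nonneg
      (fun ω _ => Finset.sum_nonneg fun i _ => Finset.sum_nonneg fun v _ =>
        mul_nonneg (Dat.kap_nonneg hOK i ω v) (by split_ifs <;> norm_num))
    have h3 := bw_mean hOK m hε (by omega) hN hTB
    have h4 : Pr d.P {ω | ¬ bw d m n k' a ω ≤ u / 8 * n} =
        Pr d.P {ω | u / 8 * n < bw d m n k' a ω} := by
      congr 1
      ext ω
      exact not_le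
    rw [h1, h4, le_div_iff₀ hu]
    have h5 : n * (u * Pr d.P {ω | u / 8 * n < bw d m n k' a ω}) ≤ n * (16 * ε) := by
      nlinarith
    have h6 := le_of_mul_le_mul_left h5 hn0
    linarith
  have e3 : Pr (d.Qp 0) {w | |d.ta w| < (2 : ℝ) ^ (-((n / 4 : ℕ) : ℤ))} ≤ ε :=
    hTA 0 (n / 4) (by omega) (by omega)
  have e4 : Pr (d.Qp 0) (GdB d J m n h k' a u)ᶜ ≤
      Pr (d.Qp 0) (({w | w.1 ∉ GdJ d J h u} ∪ {w | ¬ bw d m n k' a w.1 ≤ u / 8 * n}) ∪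
        {w | |d.ta w| < (2 : ℝ) ^ (-((n / 4 : ℕ) : ℤ))}) := by
    refine Pr_mono hp fun w _ hw => ?_
    by_contra hc
    simp only [Set.mem_union, not_or] at hc
    obtain ⟨⟨c1, c2⟩, c3⟩ := hc
    exact hw ⟨not_not.1 c1, not_not.1 c2, not_lt.1 c3⟩
  have e5 := Pr_union_le hp ({w | w.1 ∉ GdJ d J h u} ∪ {w | ¬ bw d m n k' a w.1 ≤ u / 8 * n})
    {w | |d.ta w| < (2 : ℝ) ^ (-((n / 4 : ℕ) : ℤ))}
  have e6 := Pr_union_le hp {w | w.1 ∉ GdJ d J h u} {w | ¬ bw d m n k' a w.1 ≤ u / 8 * n}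
  linarith

/-- Good partners are admissible. -/
theorem good_Wb {d : Dat} {m : d.Lam → ℤ} {n k' a i : ℕ} (hk : k' ≤ n) (hi : i ≤ n)
    {w : d.Om × d.Om} {v : d.Om} (hw : (2 : ℝ) ^ (-((n / 4 : ℕ) : ℤ)) ≤ |d.ta w|)
    (hT : d.Ti i v = d.Ti i w.1) (hv : (w.1, v) ∉ badB d m n k' a i) :
    (m (d.L w.1), d.T w.1, d.T w.2, d.T v) ∈ Wb d n k' a i := by
  have h1 : ¬ (|d.ta (w.1, v)| < (2 : ℝ) ^ (-((i : ℤ) + k'))) := fun h => hv (Or.inl h)
  have h2 : ¬ ((2 : ℝ) ^ (-(4 * n : ℤ)) ≤ |d.ta (w.1, v)| ∧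
    (2 : ℝ) ^ ((a : ℤ) + 4 - m (d.L w.1)) * |d.ta (w.1, v)| < |d.sg (w.1, v)|) :=
    fun h => hv (Or.inr h)
  rw [not_lt] at h1
  refine ⟨hw, h1, Dat.ti_near hT, ?_⟩
  by_contra h3
  rw [not_le] at h3
  refine h2 ⟨le_trans (zpow_le_zpow_right₀ (by norm_num) ?_) h1, h3⟩
  omega

open Classical in
/-- **The forms of the cells of stage B.** -/
theorem sel_B {d : Dat} {A : ℕ} (hOK : d.OK A) {J : d.Om → Set ℕ} {m : d.Lam → ℤ}
    {n h k k₁ k' a K : ℕ} {e u ε : ℝ} (hS : Siz d n h m) (hu : 0 < u) (hε : 0 < ε)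
    (hk : a + 8 ≤ k) (hk₁ : k' + K + 2 ≤ k₁) (hn : a + K + 6 ≤ n / 4) (hkn : k' ≤ n)
    (hR : RowB d J m n k k₁ e) :
    ∃ (chi c : ℕ → ((d.Tau × d.Tau × ℤ) × ℤ × ℤ) × ℤ → ℝ) (b : ℕ → ℝ),
      (∀ s g, |chi s g| ≤ 2 ^ (a + 4)) ∧
      (∀ s, 8 * n ≤ s → s < d.X - 8 * n → Pr (d.Qp 0) {ω | (1 / 2 ^ (K + 1)) / 2 ^ s <
        |d.beT m ω - (chi s (cB (d.x0 m) d.y1 d.omT (d.beT m) s ω) * d.y1 ω +
          c s (cB (d.x0 m) d.y1 d.omT (d.beT m) s ω))|} ≤ b s) ∧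
      (∀ s, 0 ≤ b s) ∧
      ∑ s ∈ Finset.Ico (8 * n) (d.X - 8 * n), b s ≤
        d.X * (Pr (d.Qp 0) (GdB d J m n h k' a u)ᶜ + ε) + 8 * (e * d.X) / (ε * u) := by
  have hlaw := Dat.qp_law hOK 0
  have hp := hlaw.nonneg
  have hn1 : 1 ≤ n := by
    have := hS.h1
    have := hS.hn
    omega
  have hn0 : (0 : ℝ) < n := by exact_mod_cast hn1
  have hnX := hS.nX
  have hhn := hS.hn
  set G : ℕ → d.Om × d.Om → ((d.Tau × d.Tau × ℤ) × ℤ × ℤ) × ℤ :=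
    fun s => cB (d.x0 m) d.y1 d.omT (d.beT m) s with hG
  set F : Finset ℕ := Finset.Ico (n / 2) n with hF
  set κ : d.Om × d.Om → (F × d.Om) → ℝ := fun w a => d.kap a.1 w.1 a.2 with hκ
  set W : ℕ → d.Om × d.Om → (F × d.Om) → ℝ := fun s w b =>
    if ((s : ℤ) + m (d.L w.1) + (b.1 : ℕ)).toNat ∈ J w.1 ∧
      (m (d.L w.1), d.T w.1, d.T w.2, d.T b.2) ∈ Wb d n k' a b.1 then 1 else 0 with hW
  set far : ℕ → d.Om × d.Om → (F × d.Om) → ℝ := fun s w b =>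
    Pr (cond (d.Qp 0) (G s) (G s w)) {v | (2 : ℝ) ^ (-((s : ℤ) + (m (d.L w.1) + (b.1 : ℕ)) + k₁)) ≤
      |d.ZR (d.T w.1) (d.T b.2) (d.L w.1) - d.ZR (d.T w.1) (d.T b.2) (d.L v.1)|} with hfar
  have hfar0 : ∀ s w b, 0 ≤ far s w b := fun s w b => Pr_nonneg (cond_nonneg hp _ _) _
  have hW0 : ∀ s w b, 0 ≤ W s w b := fun s w b => by
    simp only [hW]
    split_ifs <;> norm_num
  set ρ : ℕ → ℝ := fun s => ∑ w, d.Qp 0 w * ∑ b, κ w b * (W s w b * far s w b) with hρ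
  have hρ0 : ∀ s, 0 ≤ ρ s := fun s => Finset.sum_nonneg fun w _ => mul_nonneg (hp w)
    (Finset.sum_nonneg fun b _ => mul_nonneg (Dat.kap_nonneg hOK _ _ _)
      (mul_nonneg (hW0 _ _ _) (hfar0 _ _ _)))
  -- the rows
  set R : ℕ → ℕ → ℝ := fun s i => Ex (d.Q3 i) (Set.indicator
      {w | (m (d.L w.1.1), d.T w.1.1, d.T w.1.2, d.T w.2) ∈ Wb d n k' a i ∧
        0 ≤ (s : ℤ) + (m (d.L w.1.1) + i) ∧
        ((s : ℤ) + (m (d.L w.1.1) + i)).toNat ∈ J w.1.1}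
      (fun w => Pr (cond (d.Qp 0) (d.LB m s) (d.LB m s w.1))
        {v | (2 : ℝ) ^ (-((s : ℤ) + (m (d.L w.1.1) + i) + k₁)) ≤
          |d.ZR (d.T w.1.1) (d.T w.2) (d.L w.1.1) -
            d.ZR (d.T w.1.1) (d.T w.2) (d.L v.1)|})) with hRdef
  have hRow : ∀ i ∈ F, ∑ s ∈ Finset.Ico (8 * n) (d.X - 8 * n), R s i ≤ e * d.X := by
    intro i hi
    rw [hF, Finset.mem_Ico] at hi
    refine hR i (by omega) (fun m₀ _ _ _ => m₀ + i) (Wb d n k' a i) ?_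
    intro w v s _ _ hw _ hvw
    have h1 := (cell_form (k' := k') (a := a) hi.1 hw ((cB_iff s v w.1).1 hvw)).1
    refine h1.trans (zpow_le_zpow_right₀ (by norm_num) ?_)
    omega
  have hρR : ∀ s, 8 * n ≤ s → ρ s = ∑ i ∈ F, R s i := by
    intro s hs
    simp only [hρ, hRdef]
    have e1 : ∀ i ∈ F, Ex (d.Q3 i) (Set.indicator
      {w | (m (d.L w.1.1), d.T w.1.1, d.T w.1.2, d.T w.2) ∈ Wb d n k' a i ∧
        0 ≤ (s : ℤ) + (m (d.L w.1.1) + i) ∧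
        ((s : ℤ) + (m (d.L w.1.1) + i)).toNat ∈ J w.1.1}
      (fun w => Pr (cond (d.Qp 0) (d.LB m s) (d.LB m s w.1))
        {v | (2 : ℝ) ^ (-((s : ℤ) + (m (d.L w.1.1) + i) + k₁)) ≤
          |d.ZR (d.T w.1.1) (d.T w.2) (d.L w.1.1) -
            d.ZR (d.T w.1.1) (d.T w.2) (d.L v.1)|})) =
      ∑ w, d.Qp 0 w * ∑ v, d.kap i w.1 v *
        ((if ((s : ℤ) + m (d.L w.1) + (i : ℕ)).toNat ∈ J w.1 ∧
      (m (d.L w.1), d.T w.1, d.T w.2, d.T v) ∈ Wb d n k' a i then 1 else 0) *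
        Pr (cond (d.Qp 0) (G s) (G s w)) {v' | (2 : ℝ) ^ (-((s : ℤ) + (m (d.L w.1) + (i : ℕ)) + k₁)) ≤
      |d.ZR (d.T w.1) (d.T v) (d.L w.1) - d.ZR (d.T w.1) (d.T v) (d.L v'.1)|}) := by
      intro i hi
      rw [Dat.ex_q3 hOK]
      refine Finset.sum_congr rfl fun w _ => ?_
      congr 1
      refine Finset.sum_congr rfl fun v _ => ?_
      congr 1
      have hz : 0 ≤ (s : ℤ) + (m (d.L w.1) + i) := by
        have := hS.m1 (d.L w.1)
        omega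
      have hcond : cond (d.Qp 0) (d.LB m s) (d.LB m s w) = cond (d.Qp 0) (G s) (G s w) :=
        cond_iff (fun v w => cB_iff s v w) w
      by_cases hc : ((s : ℤ) + m (d.L w.1) + (i : ℕ)).toNat ∈ J w.1 ∧
          (m (d.L w.1), d.T w.1, d.T w.2, d.T v) ∈ Wb d n k' a i
      · rw [if_pos hc, one_mul, Set.indicator_of_mem]
        · simp only
          rw [hcond]
        · refine ⟨hc.2, hz, ?_⟩
          have := hc.1
          rwa [add_assoc] at this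
      · rw [if_neg hc, zero_mul, Set.indicator_of_notMem]
        rintro ⟨g1, g2, g3⟩
        apply hc
        refine ⟨?_, g1⟩
        rw [add_assoc]
        exact g3
    rw [Finset.sum_congr rfl e1, Finset.sum_comm]
    refine Finset.sum_congr rfl fun w _ => ?_
    rw [← Finset.mul_sum, Fintype.sum_prod_type, ← Finset.sum_coe_sort F]
  have hρsum : ∑ s ∈ Finset.Ico (8 * n) (d.X - 8 * n), ρ s ≤ n * (e * d.X) := by
    have e1 : ∑ s ∈ Finset.Ico (8 * n) (d.X - 8 * n), ρ s =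
        ∑ i ∈ F, ∑ s ∈ Finset.Ico (8 * n) (d.X - 8 * n), R s i :=
      (Finset.sum_congr rfl fun s hs => hρR s (Finset.mem_Ico.1 hs).1).trans Finset.sum_comm
    have hR0 : ∀ s i, 0 ≤ R s i := by
      intro s i
      refine Finset.sum_nonneg fun w _ => mul_nonneg ?_ ?_
      · exact glue_nonneg hp hOK.law.nonneg w
      · exact Set.indicator_nonneg (fun w _ => Pr_nonneg (cond_nonneg hp _ _) _) w
    have hmem : n / 2 ∈ F := by
      rw [hF, Finset.mem_Ico]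
      omega
    have he0 : 0 ≤ e * d.X := le_trans (Finset.sum_nonneg fun s _ => hR0 s _) (hRow _ hmem)
    rw [e1]
    refine (Finset.sum_le_card_nsmul _ _ _ hRow).trans ?_
    rw [hF, Nat.card_Ico, nsmul_eq_mul]
    refine mul_le_mul_of_nonneg_right ?_ he0
    have : n - n / 2 ≤ n := Nat.sub_le _ _
    exact_mod_cast this
  -- density
  have hden : ∀ s, 8 * n ≤ s → s < d.X - 8 * n → ∀ w ∈ GdB d J m n h k' a u, 0 < d.Qp 0 w →
      u / 8 * n ≤ ∑ b, κ w b * W s w b := by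
    intro s hs hs' w hw hw0
    obtain ⟨g1, g2, g3⟩ := hw
    have hPw := (Dat.qp_pos hOK hw0).1
    have m1 := hS.m1 (d.L w.1)
    have m2 := hS.m2 (d.L w.1)
    have h2 := den_gen hOK hS.h1 hS.hn hu.le hPw (J w.1) g1 (z := (s : ℤ) + m (d.L w.1))
      (by omega) (by omega) (fun i => {v | (w.1, v) ∈ badB d m n k' a i}) (by
        have h3 : bw d m n k' a w.1 ≤ u / 8 * n := g2
        exact h3)
    refine h2.trans ?_
    rw [Fintype.sum_prod_type, ← Finset.sum_coe_sort F]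
    refine Finset.sum_le_sum fun i _ => Finset.sum_le_sum fun v _ => ?_
    have hi := Finset.mem_Ico.1 i.2
    show d.kap i w.1 v * _ ≤ d.kap i w.1 v * _
    rcases (Dat.kap_nonneg hOK i w.1 v).eq_or_lt with h0 | h0
    · rw [← h0, zero_mul, zero_mul]
    · refine mul_le_mul_of_nonneg_left ?_ h0.le
      by_cases hc : ((s : ℤ) + m (d.L w.1) + (i : ℕ)).toNat ∈ J w.1 ∧
        v ∉ {v | (w.1, v) ∈ badB d m n k' a i}
      · rw [if_pos hc]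
        simp only [hW]
        rw [if_pos]
        exact ⟨hc.1, good_Wb hkn hi.2.le g3 (Dat.kap_pos hOK h0).2.2 hc.2⟩
      · rw [if_neg hc]
        exact hW0 _ _ _
  -- the witnesses
  set Tw : ℕ → Set (d.Om × d.Om) := fun s => {w | w ∈ GdB d J m n h k' a u ∧
    ∃ b, 0 < W s w b ∧ far s w b ≤ ε} with hTw
  have hTc : ∀ s, 8 * n ≤ s → s < d.X - 8 * n →
      Pr (d.Qp 0) (Tw s)ᶜ ≤ Pr (d.Qp 0) (GdB d J m n h k' a u)ᶜ + ρ s / (ε * (u / 8 * n)) := by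
    intro s hs hs'
    have h1 := rare hlaw κ (fun w b => Dat.kap_nonneg hOK _ _ _) (W s) (far s) (hW0 s) (hfar0 s)
      (GdB d J m n h k' a u) (u := u / 8 * n) (ε := ε) (ρ := ρ s) (by positivity) hε
      (hden s hs hs') le_rfl
    have h2 : Pr (d.Qp 0) (Tw s)ᶜ ≤ Pr (d.Qp 0) ((GdB d J m n h k' a u)ᶜ ∪
        {w | w ∈ GdB d J m n h k' a u ∧ ¬ ∃ b, 0 < W s w b ∧ far s w b ≤ ε}) := by
      refine Pr_mono hp fun w _ hw => ?_
      by_cases hg : w ∈ GdB d J m n h k' a u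
      · right
        refine ⟨hg, fun hb => hw ⟨hg, hb⟩⟩
      · left
        exact hg
    have h3 := Pr_union_le hp (GdB d J m n h k' a u)ᶜ
      {w | w ∈ GdB d J m n h k' a u ∧ ¬ ∃ b, 0 < W s w b ∧ far s w b ≤ ε}
    linarith
  have hex : ∀ (s : ℕ) (g : ((d.Tau × d.Tau × ℤ) × ℤ × ℤ) × ℤ),
      (∃ w ∈ Tw s, 0 < d.Qp 0 w ∧ G s w = g) →
      ∃ (w : d.Om × d.Om) (b : F × d.Om), w ∈ Tw s ∧ 0 < d.Qp 0 w ∧ G s w = g ∧ 0 < W s w b ∧
        far s w b ≤ ε := by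
    rintro s g ⟨w, h1, h2, h3⟩
    obtain ⟨h4, b, h5, h6⟩ := id h1
    exact ⟨w, b, h1, h2, h3, h5, h6⟩
  choose wf bf hs using hex
  have hWpos : ∀ {s : ℕ} {w : d.Om × d.Om} {b : F × d.Om}, 0 < W s w b →
      (m (d.L w.1), d.T w.1, d.T w.2, d.T b.2) ∈ Wb d n k' a b.1 := by
    intro s w b hb
    simp only [hW] at hb
    split_ifs at hb with hc
    · exact hc.2
    · exact absurd hb (lt_irrefl _)
  set ch : d.Om × d.Om → d.Om → ℝ := fun w v =>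
    (2 : ℝ) ^ m (d.L w.1) * (d.S (d.T v) - d.S (d.T w.1)) / (d.th (d.T v) - d.th (d.T w.1))
    with hch
  set chi : ℕ → ((d.Tau × d.Tau × ℤ) × ℤ × ℤ) × ℤ → ℝ := fun s g =>
    if h : ∃ w ∈ Tw s, 0 < d.Qp 0 w ∧ G s w = g then ch (wf s g h) (bf s g h).2 else 0 with hchi
  set cc : ℕ → ((d.Tau × d.Tau × ℤ) × ℤ × ℤ) × ℤ → ℝ := fun s g =>
    if h : ∃ w ∈ Tw s, 0 < d.Qp 0 w ∧ G s w = g then
      d.beT m (wf s g h) - chi s g * d.y1 (wf s g h) else 0 with hcc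
  refine ⟨chi, cc, fun s => Pr (d.Qp 0) (GdB d J m n h k' a u)ᶜ + ρ s / (ε * (u / 8 * n)) + ε,
    ?_, ?_, ?_, ?_⟩
  · intro s g
    simp only [hchi]
    by_cases h : ∃ w ∈ Tw s, 0 < d.Qp 0 w ∧ G s w = g
    · rw [dif_pos h]
      have h1 := hs s g h
      have hi := Finset.mem_Ico.1 (bf s g h).1.2
      exact (cell_form (s := s) (v := wf s g h) hi.1 (hWpos h1.2.2.2.1) rfl).2.2
    · rw [dif_neg h, abs_zero]
      positivity
  · intro s hs1 hs2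
    refine (pick hlaw (G s) (Tw s) (fun g => {ω | (1 / 2 ^ (K + 1)) / 2 ^ s <
        |d.beT m ω - (chi s g * d.y1 ω + cc s g)|}) hε.le ?_).trans
        (add_le_add_left (hTc s hs1 hs2) ε)
    intro g h
    have h1 := hs s g h
    set w := wf s g h with hwdef
    set b := bf s g h with hbdef
    obtain ⟨-, hw0, hwg, hWb, hfb⟩ := h1
    have hi := Finset.mem_Ico.1 b.1.2
    simp only [hfar] at hfb
    rw [hwg] at hfb
    refine le_trans (Pr_mono (cond_nonneg hp (G s) g) ?_) hfb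
    intro v hv hvb
    obtain ⟨hv0, hvg⟩ := (cond_pos_iff hp _ _ v).1 hv
    have h2 := (cell_form (s := s) (v := v) hi.1 (hWpos hWb) (hvg.trans hwg.symm)).2.1
    by_contra hcon
    have hcon' : |d.ZR (d.T w.1) (d.T b.2) (d.L w.1) - d.ZR (d.T w.1) (d.T b.2) (d.L v.1)| <
        (2 : ℝ) ^ (-((s : ℤ) + (m (d.L w.1) + (b.1 : ℕ)) + k₁)) := not_le.1 hcon
    have hvb' : (1 / 2 ^ (K + 1)) / 2 ^ s < |d.beT m v - (chi s g * d.y1 v + cc s g)| := hvb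
    have h3 : d.beT m v - (chi s g * d.y1 v + cc s g) =
        (d.beT m v - d.beT m w) - ch w b.2 * (d.y1 v - d.y1 w) := by
      simp only [hchi, hcc]
      rw [dif_pos h, dif_pos h]
      rw [← hwdef, ← hbdef]
      ring
    rw [h3] at hvb'
    have h4 : (2 : ℝ) ^ (m (d.L w.1) + (b.1 : ℕ) + k') *
        |d.ZR (d.T w.1) (d.T b.2) (d.L w.1) - d.ZR (d.T w.1) (d.T b.2) (d.L v.1)| ≤
        1 / 2 ^ (K + 2) / 2 ^ s := by
      refine (mul_le_mul_of_nonneg_left hcon'.le (by positivity)).trans ?_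
      rw [← zpow_add₀ (by norm_num), one_div, ← zpow_natCast (2 : ℝ) (K + 2), ← zpow_neg,
        div_eq_mul_inv, ← zpow_natCast (2 : ℝ) s, ← zpow_neg, ← zpow_add₀ (by norm_num)]
      refine zpow_le_zpow_right₀ (by norm_num) ?_
      push_cast
      omega
    have h5 : (2 : ℝ) ^ (a + 4) / 2 ^ (n / 4) / 2 ^ s ≤ 1 / 2 ^ (K + 2) / 2 ^ s := by
      refine div_le_div_of_nonneg_right ?_ (by positivity)
      rw [div_le_div_iff₀ (by positivity) (by positivity), one_mul, ← pow_add]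
      exact pow_le_pow_right₀ (by norm_num) (by omega)
    have h6 : (1 : ℝ) / 2 ^ (K + 1) / 2 ^ s = 1 / 2 ^ (K + 2) / 2 ^ s + 1 / 2 ^ (K + 2) / 2 ^ s := by
      rw [pow_succ 2 (K + 1)]
      field_simp
      ring
    rw [h6] at hvb'
    simp only [hch] at hvb'
    linarith
  · intro s
    have h1 : 0 ≤ Pr (d.Qp 0) (GdB d J m n h k' a u)ᶜ := Pr_nonneg hp _
    have h2 := hρ0 s
    positivity
  · rw [Finset.sum_add_distrib, Finset.sum_add_distrib, Finset.sum_const, Finset.sum_const,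
      Nat.card_Ico, ← Finset.sum_div, nsmul_eq_mul, nsmul_eq_mul]
    have h1 : ((d.X - 8 * n - 8 * n : ℕ) : ℝ) ≤ d.X := by
      have : d.X - 8 * n - 8 * n ≤ d.X := by omega
      exact_mod_cast this
    have h2 : 0 ≤ Pr (d.Qp 0) (GdB d J m n h k' a u)ᶜ := Pr_nonneg hp _
    have h3 : (∑ s ∈ Finset.Ico (8 * n) (d.X - 8 * n), ρ s) / (ε * (u / 8 * n)) ≤
        8 * (e * d.X) / (ε * u) := by
      rw [div_le_div_iff₀ (by positivity) (by positivity)]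
      have h4 : 0 ≤ ε * u := by positivity
      calc (∑ s ∈ Finset.Ico (8 * n) (d.X - 8 * n), ρ s) * (ε * u)
          ≤ (n * (e * d.X)) * (ε * u) := mul_le_mul_of_nonneg_right hρsum h4
        _ = 8 * (e * d.X) * (ε * (u / 8 * n)) := by ring
    nlinarith

end Pool.OC
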